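import Mathlib
import Pool.Agent.Y742.SF.PDex
import Pool.Agent.Y742.SF.SubS
import Pool.Agent.Y742.DI.Dict

/-!
The field of germs of sequences of elements of a number field, with bounded height.
-/

set_option autoImplicit false
set_option linter.unusedSectionVars false
set_option linter.unusedSimpArgs false

open Finset Filter Topology Module

namespace Pool.Agent.Y742.AR

open NumberField IsDedekindDomain
open Pool.Agent.Y742.SF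

variable {K : Type} [Field K] [NumberField K] (𝒰 : Ultrafilter ℕ)

/-- germs -/
abbrev GK (K : Type) (𝒰 : Ultrafilter ℕ) : Type := Germ (𝒰 : Filter ℕ) K

/-- the germ of a sequence -/
noncomputable def gm : (ℕ → K) →+* GK K 𝒰 := Germ.coeRingHom (𝒰 : Filter ℕ)

theorem gm_eq (f g : ℕ → K) : gm 𝒰 f = gm 𝒰 g ↔ ∀ᶠ t in (𝒰 : Filter ℕ), f t = g t :=
  Germ.coe_eq

theorem gm_surj (x : GK K 𝒰) : ∃ f : ℕ → K, gm 𝒰 f = x := by
  induction x using Germ.inductionOn with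
  | _ f => exact ⟨f, rfl⟩

/-- a representative -/
noncomputable def rep {𝒰 : Ultrafilter ℕ} (x : GK K 𝒰) : ℕ → K := (gm_surj 𝒰 x).choose

theorem gm_rep {𝒰 : Ultrafilter ℕ} (x : GK K 𝒰) : gm 𝒰 (rep x) = x := (gm_surj 𝒰 x).choose_spec

/-- the germ of a constant -/
noncomputable def cg : K →+* GK K 𝒰 := (gm 𝒰).comp (Pi.constRingHom ℕ K)

theorem cg_eq (c : K) : cg 𝒰 c = gm 𝒰 (fun _ => c) := rfl

variable {𝒰}

theorem rep_eq (x : GK K 𝒰) (f : ℕ → K) (h : x = gm 𝒰 f) :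
    ∀ᶠ t in (𝒰 : Filter ℕ), rep x t = f t := by
  rw [← gm_eq, gm_rep, h]

theorem rep_gm (f : ℕ → K) : ∀ᶠ t in (𝒰 : Filter ℕ), rep (gm 𝒰 f) t = f t := rep_eq _ _ rfl

theorem rep_mul (x y : GK K 𝒰) : ∀ᶠ t in (𝒰 : Filter ℕ), rep (x * y) t = rep x t * rep y t :=
  rep_eq _ (fun t => rep x t * rep y t) (by
    show x * y = gm 𝒰 (rep x * rep y)
    rw [map_mul, gm_rep, gm_rep])

theorem rep_add (x y : GK K 𝒰) : ∀ᶠ t in (𝒰 : Filter ℕ), rep (x + y) t = rep x t + rep y t :=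
  rep_eq _ (fun t => rep x t + rep y t) (by
    show x + y = gm 𝒰 (rep x + rep y)
    rw [map_add, gm_rep, gm_rep])

theorem rep_neg (x : GK K 𝒰) : ∀ᶠ t in (𝒰 : Filter ℕ), rep (-x) t = -rep x t :=
  rep_eq _ (fun t => -rep x t) (by
    show -x = gm 𝒰 (-rep x)
    rw [map_neg, gm_rep])

theorem rep_zero : ∀ᶠ t in (𝒰 : Filter ℕ), rep (0 : GK K 𝒰) t = 0 :=
  rep_eq _ (fun _ => 0) (by
    show 0 = gm 𝒰 0
    rw [map_zero])

theorem rep_one : ∀ᶠ t in (𝒰 : Filter ℕ), rep (1 : GK K 𝒰) t = 1 :=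
  rep_eq _ (fun _ => 1) (by
    show 1 = gm 𝒰 1
    rw [map_one])

theorem rep_cg (c : K) : ∀ᶠ t in (𝒰 : Filter ℕ), rep (cg 𝒰 c) t = c :=
  rep_eq _ (fun _ => c) rfl

theorem rep_sum {ι : Type} (s : Finset ι) (x : ι → GK K 𝒰) :
    ∀ᶠ t in (𝒰 : Filter ℕ), rep (∑ i ∈ s, x i) t = ∑ i ∈ s, rep (x i) t := by
  refine rep_eq _ (fun t => ∑ i ∈ s, rep (x i) t) ?_
  have h1 : (fun t => ∑ i ∈ s, rep (x i) t) = ∑ i ∈ s, rep (x i) := by
    funext t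
    rw [Finset.sum_apply]
  rw [h1, map_sum]
  exact Finset.sum_congr rfl fun i _ => (gm_rep _).symm

theorem rep_ne (x : GK K 𝒰) (hx : x ≠ 0) : ∀ᶠ t in (𝒰 : Filter ℕ), rep x t ≠ 0 := by
  rw [Ultrafilter.eventually_not]
  intro h
  apply hx
  rw [← gm_rep x]
  have h1 : (gm 𝒰 (rep x) : GK K 𝒰) = gm 𝒰 (fun _ => 0) := (gm_eq 𝒰 _ _).2 h
  rw [h1]
  exact map_zero (gm 𝒰)

theorem ne_of_rep (x : GK K 𝒰) (hx : ∀ᶠ t in (𝒰 : Filter ℕ), rep x t ≠ 0) : x ≠ 0 := by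
  rintro rfl
  have h0 : ∀ᶠ t in (𝒰 : Filter ℕ), rep (0 : GK K 𝒰) t = 0 := rep_zero
  obtain ⟨t, h1, h2⟩ := (hx.and h0).exists
  exact h1 h2

theorem rep_inv (x : GK K 𝒰) (hx : x ≠ 0) :
    ∀ᶠ t in (𝒰 : Filter ℕ), rep x⁻¹ t = (rep x t)⁻¹ := by
  have h0 : ∀ᶠ t in (𝒰 : Filter ℕ), rep (1 : GK K 𝒰) t = 1 := rep_one
  filter_upwards [rep_mul x x⁻¹, rep_ne x hx, h0] with t h1 h2 h3
  rw [mul_inv_cancel₀ hx, h3] at h1
  exact (inv_eq_of_mul_eq_one_right h1.symm).symm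

theorem rep_div (x y : GK K 𝒰) (hy : y ≠ 0) :
    ∀ᶠ t in (𝒰 : Filter ℕ), rep (x / y) t = rep x t / rep y t := by
  rw [div_eq_mul_inv]
  filter_upwards [rep_mul x y⁻¹, rep_inv y hy] with t h1 h2
  rw [h1, h2, div_eq_mul_inv]

/-- a sequence with finitely many values is constant -/
theorem const_of_finite (f : ℕ → K) (s : Set K) (hs : s.Finite)
    (h : ∀ᶠ t in (𝒰 : Filter ℕ), f t ∈ s) : ∃ c ∈ s, gm 𝒰 f = cg 𝒰 c := by
  by_contra hcon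
  push Not at hcon
  have h1 : ∀ c ∈ s, ∀ᶠ t in (𝒰 : Filter ℕ), f t ≠ c := by
    intro c hc
    rw [Ultrafilter.eventually_not]
    intro h
    exact hcon c hc ((gm_eq 𝒰 _ _).2 h)
  have h2 := (Filter.eventually_all_finite hs).2 h1
  obtain ⟨t, h3, h4⟩ := (h.and h2).exists
  exact h4 (f t) h3 rfl

/-- a function with values in a finite type is constant -/
theorem eventually_const {β : Type} [Finite β] (f : ℕ → β) :
    ∃ b, ∀ᶠ t in (𝒰 : Filter ℕ), f t = b := by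
  obtain ⟨b, hb⟩ := Ultrafilter.eq_pure_of_finite (𝒰.map f)
  refine ⟨b, ?_⟩
  have h1 : {b} ∈ 𝒰.map f := by
    rw [hb]
    exact Filter.mem_pure.2 rfl
  exact h1

/-- a sequence with no bound tends to infinity -/
theorem tendsto_of_unbdd (f : ℕ → ℝ) (h : ¬ ∃ C, ∀ᶠ t in (𝒰 : Filter ℕ), f t ≤ C) :
    Tendsto f (𝒰 : Filter ℕ) atTop := by
  rw [tendsto_atTop]
  intro C
  by_contra hcon
  apply h
  refine ⟨C, ?_⟩
  filter_upwards [Ultrafilter.eventually_not.2 hcon] with t ht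
  exact (not_le.1 ht).le

variable [IsGalois ℚ K] (D : PD K) (N : ℕ → ℝ)

/-- integrality up to a constant -/
def TI (𝒰 : Ultrafilter ℕ) (f : ℕ → K) : Prop :=
  ∃ c : 𝓞 K, c ≠ 0 ∧ ∀ᶠ t in (𝒰 : Filter ℕ), D.TInt ((c : K) * f t)

/-- bounded size -/
def Bd (𝒰 : Ultrafilter ℕ) (f : ℕ → K) : Prop :=
  ∃ C : ℝ, 0 ≤ C ∧ ∀ᶠ t in (𝒰 : Filter ℕ), ∀ v, D.av v (f t) ≤ Real.exp (C * N t)

variable {D N}

theorem TI.congr {f g : ℕ → K} (h : ∀ᶠ t in (𝒰 : Filter ℕ), f t = g t) (hf : TI D 𝒰 f) :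
    TI D 𝒰 g := by
  obtain ⟨c, hc, h1⟩ := hf
  refine ⟨c, hc, ?_⟩
  filter_upwards [h, h1] with t h2 h3
  rw [← h2]
  exact h3

theorem TI.mul {f g : ℕ → K} (hf : TI D 𝒰 f) (hg : TI D 𝒰 g) : TI D 𝒰 (fun t => f t * g t) := by
  obtain ⟨c, hc, h1⟩ := hf
  obtain ⟨d, hd, h2⟩ := hg
  refine ⟨c * d, mul_ne_zero hc hd, ?_⟩
  filter_upwards [h1, h2] with t h3 h4
  have h5 : ((c * d : 𝓞 K) : K) * (f t * g t) = ((c : K) * f t) * ((d : K) * g t) := by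
    push_cast
    ring
  rw [h5]
  exact D.TInt_mul _ _ h3 h4

theorem TI.add {f g : ℕ → K} (hf : TI D 𝒰 f) (hg : TI D 𝒰 g) : TI D 𝒰 (fun t => f t + g t) := by
  obtain ⟨c, hc, h1⟩ := hf
  obtain ⟨d, hd, h2⟩ := hg
  refine ⟨c * d, mul_ne_zero hc hd, ?_⟩
  filter_upwards [h1, h2] with t h3 h4
  have h5 : ((c * d : 𝓞 K) : K) * (f t + g t) = (d : K) * ((c : K) * f t) +
      (c : K) * ((d : K) * g t) := by
    push_cast
    ring
  rw [h5]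
  exact D.TInt_add _ _ (D.TInt_mul _ _ (D.TInt_int d) h3) (D.TInt_mul _ _ (D.TInt_int c) h4)

theorem TI.const (a : K) : TI D 𝒰 (fun _ => a) := by
  obtain ⟨x, y, hy, rfl⟩ := IsFractionRing.div_surjective (A := 𝓞 K) a
  have hy0 : y ≠ 0 := nonZeroDivisors.ne_zero hy
  refine ⟨y, hy0, Filter.Eventually.of_forall fun t => ?_⟩
  have h1 : ((y : 𝓞 K) : K) * (algebraMap (𝓞 K) K x / algebraMap (𝓞 K) K y) = (x : K) := by
    have h2 : (algebraMap (𝓞 K) K) y ≠ 0 := RingOfIntegers.coe_ne_zero_iff.2 hy0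
    exact mul_div_cancel₀ _ h2
  rw [h1]
  exact D.TInt_int x

theorem Bd.congr {f g : ℕ → K} (h : ∀ᶠ t in (𝒰 : Filter ℕ), f t = g t) (hf : Bd D N 𝒰 f) :
    Bd D N 𝒰 g := by
  obtain ⟨c, hc, h1⟩ := hf
  refine ⟨c, hc, ?_⟩
  filter_upwards [h, h1] with t h2 h3
  rw [← h2]
  exact h3

theorem Bd.mul {f g : ℕ → K} (hf : Bd D N 𝒰 f) (hg : Bd D N 𝒰 g) :
    Bd D N 𝒰 (fun t => f t * g t) := by
  obtain ⟨c, hc, h1⟩ := hf
  obtain ⟨d, hd, h2⟩ := hg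
  refine ⟨c + d, add_nonneg hc hd, ?_⟩
  filter_upwards [h1, h2] with t h3 h4 v
  rw [D.av_mul, add_mul, Real.exp_add]
  exact mul_le_mul (h3 v) (h4 v) (D.av_nonneg _ _) (Real.exp_pos _).le

theorem Bd.add (hN : ∀ t, 1 ≤ N t) {f g : ℕ → K} (hf : Bd D N 𝒰 f) (hg : Bd D N 𝒰 g) :
    Bd D N 𝒰 (fun t => f t + g t) := by
  obtain ⟨c, hc, h1⟩ := hf
  obtain ⟨d, hd, h2⟩ := hg
  refine ⟨c + d + 1, by linarith, ?_⟩
  filter_upwards [h1, h2] with t h3 h4 v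
  have h5 := D.av_add v (f t) (g t)
  have h6 := hN t
  have h7 : Real.exp (c * N t) ≤ Real.exp ((c + d) * N t) := by
    rw [Real.exp_le_exp]
    nlinarith
  have h8 : Real.exp (d * N t) ≤ Real.exp ((c + d) * N t) := by
    rw [Real.exp_le_exp]
    nlinarith
  have h9 : (2 : ℝ) ≤ Real.exp (N t) := by
    have := Real.add_one_le_exp (N t)
    linarith
  have h10 : Real.exp ((c + d + 1) * N t) = Real.exp ((c + d) * N t) * Real.exp (N t) := by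
    rw [← Real.exp_add]
    congr 1
    ring
  rw [h10]
  have h11 := Real.exp_pos ((c + d) * N t)
  nlinarith [h3 v, h4 v]

theorem Bd.const (hN : ∀ t, 1 ≤ N t) (a : K) : Bd D N 𝒰 (fun _ => a) := by
  refine ⟨∑ v, D.av v a, Finset.sum_nonneg fun _ _ => D.av_nonneg _ _,
    Filter.Eventually.of_forall fun t v => ?_⟩
  have h1 : D.av v a ≤ ∑ v, D.av v a :=
    Finset.single_le_sum (f := fun v => D.av v a) (fun _ _ => D.av_nonneg _ _) (Finset.mem_univ v)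
  have h2 := Real.add_one_le_exp ((∑ v, D.av v a) * N t)
  have h3 := hN t
  have h4 : 0 ≤ ∑ v, D.av v a := Finset.sum_nonneg fun _ _ => D.av_nonneg _ _
  nlinarith

/-- integral germs of bounded size -/
noncomputable def R0 (D : PD K) (𝒰 : Ultrafilter ℕ) (N : ℕ → ℝ) (hN : ∀ t, 1 ≤ N t) :
    Subring (GK K 𝒰) where
  carrier := {x | ∃ f : ℕ → K, x = gm 𝒰 f ∧ TI D 𝒰 f ∧ Bd D N 𝒰 f}
  mul_mem' := by
    rintro _ _ ⟨f, rfl, h1, h2⟩ ⟨g, rfl, h3, h4⟩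
    exact ⟨f * g, (map_mul _ _ _).symm, h1.mul h3, h2.mul h4⟩
  one_mem' := ⟨1, (map_one _).symm, TI.const 1, Bd.const hN 1⟩
  add_mem' := by
    rintro _ _ ⟨f, rfl, h1, h2⟩ ⟨g, rfl, h3, h4⟩
    exact ⟨f + g, (map_add _ _ _).symm, h1.add h3, h2.add hN h4⟩
  zero_mem' := ⟨0, (map_zero _).symm, TI.const 0, Bd.const hN 0⟩
  neg_mem' := by
    rintro _ ⟨f, rfl, h1, h2⟩
    refine ⟨-f, (map_neg _ _).symm, ?_, ?_⟩
    · exact TI.congr (Filter.Eventually.of_forall fun t => by simp) ((TI.const (-1)).mul h1)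
    · exact Bd.congr (Filter.Eventually.of_forall fun t => by simp) ((Bd.const hN (-1)).mul h2)

theorem mem_R0 (hN : ∀ t, 1 ≤ N t) (x : GK K 𝒰) :
    x ∈ R0 D 𝒰 N hN ↔ TI D 𝒰 (rep x) ∧ Bd D N 𝒰 (rep x) := by
  constructor
  · rintro ⟨f, hf, h1, h2⟩
    have h3 := rep_eq x f hf
    have h4 : ∀ᶠ t in (𝒰 : Filter ℕ), f t = rep x t := by
      filter_upwards [h3] with t ht
      exact ht.symm
    exact ⟨h1.congr h4, h2.congr h4⟩
  · rintro ⟨h1, h2⟩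
    exact ⟨rep x, (gm_rep x).symm, h1, h2⟩

/-- the field of germs of bounded height -/
def EE (D : PD K) (𝒰 : Ultrafilter ℕ) (N : ℕ → ℝ) (hN : ∀ t, 1 ≤ N t) : Type :=
  (Subfield.closure (R0 D 𝒰 N hN : Set (GK K 𝒰)) : Subfield (GK K 𝒰))

noncomputable instance (hN : ∀ t, 1 ≤ N t) : Field (EE D 𝒰 N hN) :=
  inferInstanceAs (Field (Subfield.closure (R0 D 𝒰 N hN : Set (GK K 𝒰)) : Subfield (GK K 𝒰)))

variable (hN : ∀ t, 1 ≤ N t)

/-- the inclusion -/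
noncomputable def inc : EE D 𝒰 N hN →+* GK K 𝒰 :=
  (Subfield.closure (R0 D 𝒰 N hN : Set (GK K 𝒰))).subtype

theorem inc_inj : Function.Injective (inc (D := D) (𝒰 := 𝒰) hN) := (inc hN).injective

theorem cg_mem (c : K) : cg 𝒰 c ∈ R0 D 𝒰 N hN := ⟨fun _ => c, rfl, TI.const c, Bd.const hN c⟩

/-- the constants -/
noncomputable def cE : K →+* EE D 𝒰 N hN :=
  (cg 𝒰).codRestrict (Subfield.closure (R0 D 𝒰 N hN : Set (GK K 𝒰)) : Subfield (GK K 𝒰)).toSubring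
    (fun c => Subfield.subset_closure (cg_mem hN c))

noncomputable instance : Algebra K (EE D 𝒰 N hN) := (cE hN).toAlgebra

theorem inc_algebraMap (c : K) : inc hN (algebraMap K (EE D 𝒰 N hN) c) = cg 𝒰 c := rfl

theorem mem_range_inc (x : GK K 𝒰) :
    (∃ y : EE D 𝒰 N hN, inc hN y = x) ↔ ∃ a ∈ R0 D 𝒰 N hN, ∃ b ∈ R0 D 𝒰 N hN, a / b = x := by
  have h1 : (∃ y : EE D 𝒰 N hN, inc hN y = x) ↔
      x ∈ Subfield.closure (R0 D 𝒰 N hN : Set (GK K 𝒰)) :=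
    ⟨fun ⟨y, hy⟩ => hy ▸ y.2, fun h => ⟨⟨x, h⟩, rfl⟩⟩
  rw [h1, Subfield.mem_closure_iff, Subring.closure_eq]

end Pool.Agent.Y742.AR
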