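import Mathlib
import Pool.Agent.Y742.AR.Germ

/-!
The unit equation for germs of `S`-units.
-/

set_option autoImplicit false
set_option linter.unusedSectionVars false
set_option linter.unusedSimpArgs false

open Finset Filter Topology Module

namespace Pool.Agent.Y742.AR

open NumberField IsDedekindDomain
open Pool.Agent.Y742.SF

variable {K : Type} [Field K] [NumberField K] {𝒰 : Ultrafilter ℕ} [IsGalois ℚ K] {D : PD K}

/-- lower bound -/
theorem lbdd (x : GK K 𝒰) (hx : x ≠ 0) (h : TI D 𝒰 (rep x)) :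
    ∃ C : ℝ, ∀ᶠ t in (𝒰 : Filter ℕ), -C ≤ ∑ v, Real.log (D.av v (rep x t)) := by
  obtain ⟨c, hc, h1⟩ := h
  have hcK : (c : K) ≠ 0 := RingOfIntegers.coe_ne_zero_iff.2 hc
  refine ⟨∑ v, Real.log (D.av v (c : K)), ?_⟩
  filter_upwards [h1, rep_ne x hx] with t h2 h3
  have h4 := D.sum_av_nonneg _ (mul_ne_zero hcK h3) h2
  have h5 : ∑ v, Real.log (D.av v ((c : K) * rep x t)) =
      ∑ v, Real.log (D.av v (c : K)) + ∑ v, Real.log (D.av v (rep x t)) := by
    rw [← Finset.sum_add_distrib]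
    refine Finset.sum_congr rfl fun v _ => ?_
    rw [D.av_mul, Real.log_mul (D.av_pos v _ hcK).ne' (D.av_pos v _ h3).ne']
  rw [h5] at h4
  linarith

theorem av_inv (v : (K ≃ₐ[ℚ] K) ⊕ Fin D.s) (x : K) (hx : x ≠ 0) :
    Real.log (D.av v x⁻¹) = -Real.log (D.av v x) := by
  have h1 : D.av v (x * x⁻¹) = 1 := by rw [mul_inv_cancel₀ hx, D.av_one]
  rw [D.av_mul] at h1
  have h2 := congrArg Real.log h1
  rw [Real.log_one, Real.log_mul (D.av_pos v _ hx).ne' (D.av_pos v _ (inv_ne_zero hx)).ne'] at h2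
  linarith

/-- upper bound -/
theorem ubdd (x : GK K 𝒰) (hx : x ≠ 0) (h : TI D 𝒰 (rep x⁻¹)) :
    ∃ C : ℝ, ∀ᶠ t in (𝒰 : Filter ℕ), ∑ v, Real.log (D.av v (rep x t)) ≤ C := by
  obtain ⟨C, hC⟩ := lbdd (D := D) x⁻¹ (inv_ne_zero hx) h
  refine ⟨C, ?_⟩
  filter_upwards [hC, rep_inv x hx, rep_ne x hx] with t h1 h2 h3
  rw [h2] at h1
  simp only [av_inv _ _ h3, Finset.sum_neg_distrib] at h1
  linarith

/-- bounded germs are constant -/
theorem const_of_bdd (x : GK K 𝒰) (h : TI D 𝒰 (rep x)) (C : ℝ)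
    (hC : ∀ᶠ t in (𝒰 : Filter ℕ), ∀ v, D.av v (rep x t) ≤ C) : ∃ c : K, x = cg 𝒰 c := by
  obtain ⟨c, hc, h1⟩ := h
  have hcK : (c : K) ≠ 0 := RingOfIntegers.coe_ne_zero_iff.2 hc
  obtain ⟨B, hB⟩ : ∃ B : ℝ, B = (∑ v, D.av v (c : K)) * |C| := ⟨_, rfl⟩
  obtain ⟨d, -, hd⟩ := const_of_finite (𝒰 := 𝒰) (fun t => (c : K) * rep x t) _ (D.finite_bdd B) (by
    filter_upwards [h1, hC] with t h2 h3
    refine ⟨h2, fun v => ?_⟩
    rw [D.av_mul, hB]
    refine mul_le_mul ?_ ((h3 v).trans (le_abs_self C)) (D.av_nonneg _ _)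
      (Finset.sum_nonneg fun _ _ => D.av_nonneg _ _)
    exact Finset.single_le_sum (f := fun v => D.av v (c : K)) (fun _ _ => D.av_nonneg _ _)
      (Finset.mem_univ v))
  refine ⟨(c : K)⁻¹ * d, ?_⟩
  have h2 : cg 𝒰 (c : K) * x = cg 𝒰 d := by
    rw [← hd]
    have h3 : x = gm 𝒰 (rep x) := (gm_rep x).symm
    conv_lhs => rw [h3, cg_eq, ← map_mul]
    rfl
  rw [map_mul, ← h2, ← mul_assoc, ← map_mul, inv_mul_cancel₀ hcK, map_one, one_mul]

theorem TI_rep_mul (x y : GK K 𝒰) (hx : TI D 𝒰 (rep x)) (hy : TI D 𝒰 (rep y)) :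
    TI D 𝒰 (rep (x * y)) := by
  refine (hx.mul hy).congr ?_
  filter_upwards [rep_mul x y] with t ht
  exact ht.symm

/-- common denominators -/
theorem common_den {m : ℕ} (x : Fin m → GK K 𝒰) (h : ∀ j, TI D 𝒰 (rep (x j))) :
    ∃ e : 𝓞 K, e ≠ 0 ∧ ∀ᶠ t in (𝒰 : Filter ℕ), ∀ j, D.TInt ((e : K) * rep (x j) t) := by
  classical
  choose c hc h1 using h
  refine ⟨∏ j, c j, Finset.prod_ne_zero_iff.2 fun j _ => hc j, ?_⟩
  rw [Filter.eventually_all]
  intro j
  filter_upwards [h1 j] with t ht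
  rw [← Finset.mul_prod_erase _ _ (Finset.mem_univ j)]
  have h2 : ((c j * ∏ x ∈ Finset.univ.erase j, c x : 𝓞 K) : K) * rep (x j) t =
      ((∏ x ∈ Finset.univ.erase j, c x : 𝓞 K) : K) * ((c j : K) * rep (x j) t) := by
    have h3 : ((c j * ∏ x ∈ Finset.univ.erase j, c x : 𝓞 K) : K) =
        (c j : K) * ((∏ x ∈ Finset.univ.erase j, c x : 𝓞 K) : K) := map_mul (algebraMap (𝓞 K) K) _ _
    rw [h3]
    ring
  rw [h2]
  exact D.TInt_mul _ _ (D.TInt_int _) ht

theorem rep_lin {m : ℕ} (b : Fin m → K) (x : Fin m → GK K 𝒰) :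
    ∀ᶠ t in (𝒰 : Filter ℕ), rep (∑ j, cg 𝒰 (b j) * x j) t = ∑ j, b j * rep (x j) t := by
  have h1 : ∀ᶠ t in (𝒰 : Filter ℕ), ∀ j, rep (cg 𝒰 (b j) * x j) t = b j * rep (x j) t := by
    rw [Filter.eventually_all]
    intro j
    filter_upwards [rep_mul (cg 𝒰 (b j)) (x j), rep_cg (𝒰 := 𝒰) (b j)] with t h2 h3
    rw [h2, h3]
  filter_upwards [rep_sum Finset.univ (fun j => cg 𝒰 (b j) * x j), h1] with t h2 h3
  rw [h2]
  exact Finset.sum_congr rfl fun j _ => h3 j

theorem unit_ind (D : PD K) : ∀ (n : ℕ) (u : Fin n → GK K 𝒰), (∀ i, u i ≠ 0) → (∀ i, TI D 𝒰 (rep (u i))) →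
    (∀ i, TI D 𝒰 (rep (u i)⁻¹)) → (∀ i j, i ≠ j → ∀ c, u i / u j ≠ cg 𝒰 c) →
    ∀ c : Fin n → K, ∑ i, cg 𝒰 (c i) * u i = 0 → c = 0 := by
  classical
  intro n
  induction n using Nat.strong_induction_on with
  | _ n ih =>
  intro u hu hu1 hu2 hr c hc
  by_contra hc0
  rcases n with _ | m
  · exact hc0 (funext fun i => i.elim0)
  -- all coefficients are nonzero
  have hall : ∀ i, c i ≠ 0 := by
    intro i0 h0
    apply hc0
    rw [Fin.sum_univ_succAbove _ i0, h0, map_zero, zero_mul, zero_add] at hc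
    have h1 := ih m (Nat.lt_succ_self m) (fun j => u (i0.succAbove j)) (fun j => hu _)
      (fun j => hu1 _) (fun j => hu2 _) (fun i j hij => hr _ _ fun h =>
        hij (Fin.succAbove_right_injective h)) _ hc
    funext i
    rcases eq_or_ne i i0 with rfl | h2
    · exact h0
    · obtain ⟨j, rfl⟩ := Fin.exists_succAbove_eq h2
      exact congrFun h1 j
  obtain ⟨x, hx⟩ : ∃ x : Fin m → GK K 𝒰, x = fun j => u j.succ / u 0 := ⟨_, rfl⟩
  obtain ⟨d, hd⟩ : ∃ d : Fin m → K, d = fun j => c j.succ := ⟨_, rfl⟩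
  have hux : ∀ j, u j.succ = u 0 * x j := fun j => by
    rw [hx]
    exact (mul_div_cancel₀ _ (hu 0)).symm
  have hsum : ∑ j, cg 𝒰 (d j) * x j = -cg 𝒰 (c 0) := by
    rw [Fin.sum_univ_succ] at hc
    have h1 : u 0 * (cg 𝒰 (c 0) + ∑ j, cg 𝒰 (d j) * x j) = 0 := by
      rw [← hc, mul_add, Finset.mul_sum]
      congr 1
      · ring
      · refine Finset.sum_congr rfl fun j _ => ?_
        rw [hux, hd]
        ring
    have h2 := (mul_eq_zero.1 h1).resolve_left (hu 0)
    linear_combination h2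
  have hm : 1 ≤ m := by
    by_contra hm
    have hm0 : m = 0 := by omega
    subst hm0
    rw [Finset.univ_eq_empty, Finset.sum_empty] at hsum
    have h1 : cg 𝒰 (c 0) = 0 := by linear_combination hsum
    exact hall 0 ((map_eq_zero _).1 h1)
  have hx0 : ∀ j, x j ≠ 0 := fun j => by rw [hx]; exact div_ne_zero (hu _) (hu _)
  have hx1 : ∀ j, TI D 𝒰 (rep (x j)) := fun j => by
    rw [hx]
    simp only [div_eq_mul_inv]
    exact TI_rep_mul _ _ (hu1 _) (hu2 _)
  have hx2 : ∀ j, TI D 𝒰 (rep (x j)⁻¹) := fun j => by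
    rw [hx]
    simp only [inv_div]
    rw [div_eq_mul_inv]
    exact TI_rep_mul _ _ (hu1 _) (hu2 _)
  have hind : ∀ b : Fin m → K, b ≠ 0 → ∑ j, cg 𝒰 (b j) * x j ≠ 0 := by
    intro b hb h
    apply hb
    refine ih m (Nat.lt_succ_self m) (fun j => u j.succ) (fun j => hu _) (fun j => hu1 _)
      (fun j => hu2 _) (fun i j hij => hr _ _ fun h => hij (Fin.succ_injective _ h)) b ?_
    have h1 : ∑ j, cg 𝒰 (b j) * u j.succ = u 0 * ∑ j, cg 𝒰 (b j) * x j := by
      rw [Finset.mul_sum]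
      refine Finset.sum_congr rfl fun j _ => ?_
      rw [hux]
      ring
    rw [h1, h, mul_zero]
  -- the scale
  obtain ⟨N, hN⟩ : ∃ N : ℕ → ℝ, N = fun t => 1 + ∑ v, ∑ j, |Real.log (D.av v (rep (x j) t))| :=
    ⟨_, rfl⟩
  have hN1 : ∀ t, 1 ≤ N t := fun t => by
    rw [hN]
    have : 0 ≤ ∑ v, ∑ j, |Real.log (D.av v (rep (x j) t))| :=
      Finset.sum_nonneg fun _ _ => Finset.sum_nonneg fun _ _ => abs_nonneg _
    simp only
    linarith
  have hle : ∀ t v j, |Real.log (D.av v (rep (x j) t))| ≤ N t := by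
    intro t v j
    have h1 : |Real.log (D.av v (rep (x j) t))| ≤ ∑ j, |Real.log (D.av v (rep (x j) t))| :=
      Finset.single_le_sum (f := fun j => |Real.log (D.av v (rep (x j) t))|)
        (fun _ _ => abs_nonneg _) (Finset.mem_univ j)
    have h2 : ∑ j, |Real.log (D.av v (rep (x j) t))| ≤
        ∑ v, ∑ j, |Real.log (D.av v (rep (x j) t))| :=
      Finset.single_le_sum (f := fun v => ∑ j, |Real.log (D.av v (rep (x j) t))|)
        (fun _ _ => Finset.sum_nonneg fun _ _ => abs_nonneg _) (Finset.mem_univ v)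
    rw [hN]
    simp only
    linarith
  have hNt : Tendsto N (𝒰 : Filter ℕ) atTop := by
    apply tendsto_of_unbdd
    rintro ⟨C, hC⟩
    have j0 : Fin m := ⟨0, hm⟩
    obtain ⟨a, ha⟩ := const_of_bdd (x j0) (hx1 j0) (Real.exp C) (by
      filter_upwards [hC, rep_ne (x j0) (hx0 j0)] with t h1 h2 v
      rw [← Real.log_le_iff_le_exp (D.av_pos v _ h2)]
      exact (le_abs_self _).trans ((hle t v j0).trans h1))
    rw [hx] at ha
    exact hr _ _ (Fin.succ_ne_zero j0) a ha
  -- the largest coordinate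
  have : Nonempty (Fin m) := ⟨⟨0, hm⟩⟩
  choose j0 hj0 using fun (t : ℕ) (v : (K ≃ₐ[ℚ] K) ⊕ Fin D.s) =>
    Finite.exists_max (fun j => D.av v (rep (x j) t))
  obtain ⟨J0, hJ0⟩ := eventually_const (𝒰 := 𝒰) j0
  -- the forms
  let Φ : Fin (m + 1) → Fin m → K := Fin.cons d fun j => Pi.single j 1
  let J : (K ≃ₐ[ℚ] K) ⊕ Fin D.s → Fin m → Fin (m + 1) := fun v a =>
    if a = J0 v then 0 else a.succ
  have hd0 : ∀ j, d j ≠ 0 := fun j => by rw [hd]; exact hall _
  have hΦ : ∀ i, Φ i ≠ 0 := by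
    intro i
    refine Fin.cases ?_ (fun j => ?_) i
    · intro h
      exact hd0 ⟨0, hm⟩ (congrFun h ⟨0, hm⟩)
    · intro h
      have h1 := congrFun h j
      simp only [Φ, Fin.cons_succ, Pi.single_eq_same, Pi.zero_apply] at h1
      exact one_ne_zero h1
  have hJdet : ∀ v, (Matrix.of fun a j => Φ (J v a) j).det ≠ 0 := by
    intro v h
    obtain ⟨w, hw, hw2⟩ := Matrix.exists_mulVec_eq_zero_iff.2 h
    apply hw
    have h1 : ∀ a, a ≠ J0 v → w a = 0 := by
      intro a ha
      have h2 := congrFun hw2 a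
      simp only [Matrix.mulVec, dotProduct, Matrix.of_apply, J, if_neg ha, Φ, Fin.cons_succ,
        Pi.zero_apply] at h2
      rw [Finset.sum_eq_single a] at h2
      · rwa [Pi.single_eq_same, one_mul] at h2
      · intro b _ hb
        rw [Pi.single_eq_of_ne hb, zero_mul]
      · intro h
        exact absurd (Finset.mem_univ _) h
    have h2 := congrFun hw2 (J0 v)
    have h3 : ∑ j, d j * w j = 0 := by
      simpa only [Matrix.mulVec, dotProduct, Matrix.of_apply, J, if_true, Φ, Fin.cons_zero,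
        Pi.zero_apply] using h2
    rw [Finset.sum_eq_single (J0 v)] at h3
    · funext a
      rcases eq_or_ne a (J0 v) with rfl | ha
      · exact (mul_eq_zero.1 h3).resolve_left (hd0 _)
      · exact h1 a ha
    · intro b _ hb
      rw [h1 b hb, mul_zero]
    · intro h
      exact absurd (Finset.mem_univ _) h
  obtain ⟨e, he, hden⟩ := common_den x hx1
  have heK : (e : K) ≠ 0 := RingOfIntegers.coe_ne_zero_iff.2 he
  let ε : ℝ := 1 / (4 * m)
  have hmR : (1 : ℝ) ≤ m := by exact_mod_cast hm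
  have hε : 0 < ε := by positivity
  have hmain := subS D (𝒰 : Filter ℕ) hm Φ hΦ J hJdet N hNt (fun t j => (e : K) * rep (x j) t)
    hden (∑ v, D.av v (e : K) + 1) (by
      refine Filter.Eventually.mono ((Filter.eventually_all).2 fun j => rep_ne (x j) (hx0 j)) ?_
      intro t ht j v
      rw [D.av_mul, add_mul, Real.exp_add, one_mul]
      have h1 : D.av v (rep (x j) t) ≤ Real.exp (N t) := by
        rw [← Real.log_le_iff_le_exp (D.av_pos v _ (ht j))]
        exact (le_abs_self _).trans (hle t v j)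
      have h2 : D.av v (e : K) ≤ Real.exp ((∑ v, D.av v (e : K)) * N t) := by
        have h3 : D.av v (e : K) ≤ ∑ v, D.av v (e : K) :=
          Finset.single_le_sum (f := fun v => D.av v (e : K)) (fun _ _ => D.av_nonneg _ _)
            (Finset.mem_univ v)
        have h4 := Real.add_one_le_exp ((∑ v, D.av v (e : K)) * N t)
        have h5 := hN1 t
        have h6 := D.av_nonneg v (e : K)
        nlinarith
      exact mul_le_mul h2 h1 (D.av_nonneg _ _) (Real.exp_pos _).le) (by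
      intro b hb
      have h1 := rep_ne _ (hind b hb)
      filter_upwards [h1, rep_lin b x] with t h2 h3
      rw [h3] at h2
      have h4 : ∑ j, b j * ((e : K) * rep (x j) t) = (e : K) * ∑ j, b j * rep (x j) t := by
        rw [Finset.mul_sum]
        exact Finset.sum_congr rfl fun j _ => by ring
      rw [h4]
      exact mul_ne_zero heK h2) ε hε
  -- constants
  choose Cu hCu using fun j => ubdd (D := D) (x j) (hx0 j) (hx2 j)
  choose Cl hCl using fun j => lbdd (D := D) (x j) (hx0 j) (hx1 j)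
  obtain ⟨Le, hLe⟩ : ∃ Le : ℝ, Le = ∑ v, Real.log (D.av v (e : K)) := ⟨_, rfl⟩
  obtain ⟨Lc, hLc⟩ : ∃ Lc : ℝ, Lc = ∑ v, Real.log (D.av v (c 0)) := ⟨_, rfl⟩
  obtain ⟨C3, hC3⟩ : ∃ C3 : ℝ, C3 = ∑ v, |Real.log (∑ j, D.av v (d j)) - Real.log (D.av v (c 0))| :=
    ⟨_, rfl⟩
  obtain ⟨nV, hnV⟩ : ∃ nV : ℝ, nV = (Finset.univ : Finset ((K ≃ₐ[ℚ] K) ⊕ Fin D.s)).card :=
    ⟨_, rfl⟩
  obtain ⟨C2, hC2⟩ : ∃ C2 : ℝ, C2 = m * Le + Lc + ∑ j, Cu j := ⟨_, rfl⟩
  obtain ⟨B, hB⟩ : ∃ B : ℝ, B = 1 + m * (2 * (C2 + nV * C3)) + ∑ j, Cl j := ⟨_, rfl⟩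
  have hfin : ∀ᶠ t in (𝒰 : Filter ℕ), N t ≤ 2 * B := by
    have g0 : ∀ᶠ t in (𝒰 : Filter ℕ), ∀ j, rep (x j) t ≠ 0 :=
      (Filter.eventually_all).2 fun j => rep_ne (x j) (hx0 j)
    have g1 : ∀ᶠ t in (𝒰 : Filter ℕ), ∀ j, ∑ v, Real.log (D.av v (rep (x j) t)) ≤ Cu j :=
      (Filter.eventually_all).2 hCu
    have g2 : ∀ᶠ t in (𝒰 : Filter ℕ), ∀ j, -Cl j ≤ ∑ v, Real.log (D.av v (rep (x j) t)) :=
      (Filter.eventually_all).2 hCl
    have g3 : ∀ᶠ t in (𝒰 : Filter ℕ), ∑ j, d j * rep (x j) t = -c 0 := by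
      filter_upwards [rep_lin d x, rep_neg (cg 𝒰 (c 0)), rep_cg (𝒰 := 𝒰) (c 0)] with t h1 h2 h3
      rw [hsum, h2, h3] at h1
      exact h1.symm
    filter_upwards [hmain, g0, g1, g2, g3, hJ0] with t k1 k2 k3 k4 k5 k6
    have hav0 : ∀ v, D.av v (-c 0) = D.av v (c 0) := by
      intro v
      have h1 : D.av v (-1) = 1 := by
        have h2 : D.av v (-1) * D.av v (-1) = 1 := by
          rw [← D.av_mul, neg_mul_neg, one_mul, D.av_one]
        have h3 := D.av_nonneg v (-1)
        nlinarith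
      rw [neg_eq_neg_one_mul, D.av_mul, h1, one_mul]
    obtain ⟨M, hM⟩ : ∃ M : (K ≃ₐ[ℚ] K) ⊕ Fin D.s → ℝ,
      M = fun v => Real.log (D.av v (rep (x (J0 v)) t)) := ⟨_, rfl⟩
    have hMle : ∀ v j, Real.log (D.av v (rep (x j) t)) ≤ M v := by
      intro v j
      rw [hM]
      refine Real.log_le_log (D.av_pos v _ (k2 j)) ?_
      have h1 := hj0 t v j
      rw [k6] at h1
      exact h1
    have hMge : ∀ v, 0 ≤ M v + C3 := by
      intro v
      have h1 : D.av v (c 0) ≤ (∑ j, D.av v (d j)) * Real.exp (M v) := by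
        rw [← hav0, ← k5, Finset.sum_mul]
        refine (D.av_sum_le v _ _).trans (Finset.sum_le_sum fun j _ => ?_)
        rw [D.av_mul]
        refine mul_le_mul_of_nonneg_left ?_ (D.av_nonneg _ _)
        rw [← Real.log_le_iff_le_exp (D.av_pos v _ (k2 j))]
        exact hMle v j
      have hpos : 0 < ∑ j, D.av v (d j) :=
        Finset.sum_pos (fun j _ => D.av_pos v _ (hd0 j)) Finset.univ_nonempty
      have h2 := Real.log_le_log (D.av_pos v _ (hall 0)) h1
      rw [Real.log_mul hpos.ne' (Real.exp_pos _).ne', Real.log_exp] at h2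
      have h3 : |Real.log (∑ j, D.av v (d j)) - Real.log (D.av v (c 0))| ≤ C3 := by
        rw [hC3]
        exact Finset.single_le_sum (f := fun v => |Real.log (∑ j, D.av v (d j)) -
          Real.log (D.av v (c 0))|) (fun _ _ => abs_nonneg _) (Finset.mem_univ v)
      have h4 := le_abs_self (Real.log (∑ j, D.av v (d j)) - Real.log (D.av v (c 0)))
      linarith
    -- the value of the forms
    have hval : ∀ v, ∑ a, Real.log (D.av v (∑ j, Φ (J v a) j * ((e : K) * rep (x j) t))) =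
        m * Real.log (D.av v (e : K)) + ∑ a, Real.log (D.av v (rep (x a) t)) - M v +
          Real.log (D.av v (c 0)) := by
      intro v
      have h1 : ∀ a, Real.log (D.av v (∑ j, Φ (J v a) j * ((e : K) * rep (x j) t))) =
          Real.log (D.av v (e : K)) + Real.log (D.av v (rep (x a) t)) +
            (if a = J0 v then Real.log (D.av v (c 0)) - M v else 0) := by
        intro a
        by_cases ha : a = J0 v
        · have h2 : ∑ j, Φ (J v a) j * ((e : K) * rep (x j) t) = (e : K) * -c 0 := by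
            rw [← k5, Finset.mul_sum]
            refine Finset.sum_congr rfl fun j _ => ?_
            simp only [J, if_pos ha, Φ, Fin.cons_zero]
            ring
          rw [h2, D.av_mul, hav0, Real.log_mul (D.av_pos v _ heK).ne' (D.av_pos v _ (hall 0)).ne',
            if_pos ha, ha, hM]
          ring
        · have h2 : ∑ j, Φ (J v a) j * ((e : K) * rep (x j) t) = (e : K) * rep (x a) t := by
            rw [Finset.sum_eq_single a]
            · simp only [J, if_neg ha, Φ, Fin.cons_succ, Pi.single_eq_same, one_mul]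
            · intro b _ hb
              simp only [J, if_neg ha, Φ, Fin.cons_succ, Pi.single_eq_of_ne hb, zero_mul]
            · intro h
              exact absurd (Finset.mem_univ _) h
          rw [h2, D.av_mul, Real.log_mul (D.av_pos v _ heK).ne' (D.av_pos v _ (k2 a)).ne',
            if_neg ha, add_zero]
      rw [Finset.sum_congr rfl fun a _ => h1 a, Finset.sum_add_distrib, Finset.sum_add_distrib,
        Finset.sum_const, Finset.card_univ, Fintype.card_fin, nsmul_eq_mul,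
        Finset.sum_ite_eq' Finset.univ (J0 v), if_pos (Finset.mem_univ _)]
      ring
    rw [Finset.sum_congr rfl fun v _ => hval v] at k1
    simp only [Finset.sum_add_distrib, Finset.sum_sub_distrib, ← Finset.mul_sum] at k1
    have hswap : ∑ v, ∑ a, Real.log (D.av v (rep (x a) t)) ≤ ∑ j, Cu j := by
      rw [Finset.sum_comm]
      exact Finset.sum_le_sum fun j _ => k3 j
    have hMsum : ∑ v, M v ≤ ε * N t + C2 := by
      rw [hC2, hLe, hLc]
      linarith
    have hj : ∀ j, ∑ v, |Real.log (D.av v (rep (x j) t))| ≤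
        2 * (ε * N t + C2 + nV * C3) + Cl j := by
      intro j
      have h1 : ∀ v, |Real.log (D.av v (rep (x j) t))| ≤ 2 * (M v + C3) -
          Real.log (D.av v (rep (x j) t)) := by
        intro v
        have h2 := hMle v j
        have h3 := hMge v
        have hC30 : 0 ≤ C3 := by
          rw [hC3]
          exact Finset.sum_nonneg fun _ _ => abs_nonneg _
        rcases abs_cases (Real.log (D.av v (rep (x j) t))) with ⟨h4, h5⟩ | ⟨h4, h5⟩
        · rw [h4]
          linarith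
        · rw [h4]
          linarith
      refine (Finset.sum_le_sum fun v _ => h1 v).trans ?_
      rw [Finset.sum_sub_distrib, ← Finset.mul_sum, Finset.sum_add_distrib, Finset.sum_const,
        nsmul_eq_mul, ← hnV]
      have := k4 j
      linarith
    have hNle : N t ≤ 1 + ∑ j, (2 * (ε * N t + C2 + nV * C3) + Cl j) := by
      have e1 : N t = 1 + ∑ j, ∑ v, |Real.log (D.av v (rep (x j) t))| := by
        rw [Finset.sum_comm, hN]
      have e2 := Finset.sum_le_sum fun j (_ : j ∈ (Finset.univ : Finset (Fin m))) => hj j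
      linarith
    rw [Finset.sum_add_distrib, Finset.sum_const, Finset.card_univ, Fintype.card_fin,
      nsmul_eq_mul] at hNle
    have h6 : (m : ℝ) * (2 * (ε * N t + C2 + nV * C3)) =
        N t / 2 + m * (2 * (C2 + nV * C3)) := by
      simp only [ε]
      field_simp
      ring
    rw [h6] at hNle
    rw [hB]
    linarith
  obtain ⟨t, h1, h2⟩ := (hfin.and (hNt.eventually_gt_atTop (2 * B))).exists
  linarith

end Pool.Agent.Y742.AR
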