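import Mathlib
import Pool.Agent.Y742.AR.Unit

/-!
The arithmetic instance of the dictionary.
-/

set_option autoImplicit false
set_option linter.unusedSectionVars false
set_option linter.unusedSimpArgs false

open Finset Filter Topology Module

namespace Pool.Agent.Y742.AR

open NumberField IsDedekindDomain
open Pool.Agent.Y742.SF Pool.Agent.Y742.DI

variable {K : Type} [Field K] [NumberField K] {𝒰 : Ultrafilter ℕ} [IsGalois ℚ K] {D : PD K}
  {N : ℕ → ℝ} (hN : ∀ t, 1 ≤ N t)

theorem rep_const_mul (a : K) (x : GK K 𝒰) :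
    ∀ᶠ t in (𝒰 : Filter ℕ), rep (cg 𝒰 a * x) t = a * rep x t := by
  filter_upwards [rep_mul (cg 𝒰 a) x, rep_cg (𝒰 := 𝒰) a] with t h1 h2
  rw [h1, h2]

include hN in
theorem R0_bdd (x : GK K 𝒰) (hx : x ≠ 0) (h : x ∈ R0 D 𝒰 N hN) :
    ∃ C : ℝ, 0 ≤ C ∧ ∀ᶠ t in (𝒰 : Filter ℕ), ∀ v, |Real.log (D.av v (rep x t))| ≤ C * N t := by
  classical
  rw [mem_R0] at h
  obtain ⟨h1, C, hC0, hC⟩ := h
  obtain ⟨C', hC'⟩ := lbdd x hx h1
  obtain ⟨nV, hnV⟩ : ∃ nV : ℝ, nV = (Finset.univ : Finset ((K ≃ₐ[ℚ] K) ⊕ Fin D.s)).card :=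
    ⟨_, rfl⟩
  have hnV0 : 0 ≤ nV := by rw [hnV]; exact Nat.cast_nonneg _
  refine ⟨nV * C + C + |C'|, by positivity, ?_⟩
  filter_upwards [hC, hC', rep_ne x hx] with t h2 h3 h4 v
  have h5 : ∀ v, Real.log (D.av v (rep x t)) ≤ C * N t := by
    intro v
    rw [Real.log_le_iff_le_exp (D.av_pos v _ h4)]
    exact h2 v
  have h6 := hN t
  have h7 : 0 ≤ C * N t := mul_nonneg hC0 (by linarith)
  have h8 : ∑ w ∈ Finset.univ.erase v, Real.log (D.av w (rep x t)) ≤ nV * (C * N t) := by
    refine (Finset.sum_le_sum fun w _ => h5 w).trans ?_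
    rw [Finset.sum_const, nsmul_eq_mul]
    refine mul_le_mul_of_nonneg_right ?_ h7
    rw [hnV]
    exact_mod_cast Finset.card_le_card (Finset.erase_subset _ _)
  rw [← Finset.add_sum_erase _ _ (Finset.mem_univ v)] at h3
  have h9 : |C'| ≤ |C'| * N t := le_mul_of_one_le_right (abs_nonneg _) h6
  have h10 := le_abs_self C'
  have h11 : 0 ≤ nV * (C * N t) := mul_nonneg hnV0 h7
  have h12 := h5 v
  have h13 : 0 ≤ |C'| * N t := mul_nonneg (abs_nonneg _) (by linarith)
  have e1 : (nV * C + C + |C'|) * N t = nV * (C * N t) + C * N t + |C'| * N t := by ring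
  rw [e1, abs_le]
  constructor
  · linarith
  · linarith

/-- the logarithms are bounded -/
theorem EE_bdd (x : EE D 𝒰 N hN) (hx : x ≠ 0) :
    ∃ C : ℝ, 0 ≤ C ∧ ∀ᶠ t in (𝒰 : Filter ℕ), ∀ v,
      |Real.log (D.av v (rep (inc hN x) t))| ≤ C * N t := by
  obtain ⟨a, ha, b, hb, hab⟩ := (mem_range_inc hN _).1 ⟨x, rfl⟩
  have hx0 : inc hN x ≠ 0 := (map_ne_zero _).2 hx
  have hb0 : b ≠ 0 := by
    rintro rfl
    rw [div_zero] at hab
    exact hx0 hab.symm
  have ha0 : a ≠ 0 := by
    rintro rfl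
    rw [zero_div] at hab
    exact hx0 hab.symm
  obtain ⟨C, hC, h1⟩ := R0_bdd hN a ha0 ha
  obtain ⟨C', hC', h2⟩ := R0_bdd hN b hb0 hb
  refine ⟨C + C', by positivity, ?_⟩
  rw [← hab]
  filter_upwards [h1, h2, rep_div a b hb0, rep_ne a ha0, rep_ne b hb0] with t k1 k2 k3 k4 k5 v
  rw [k3, div_eq_mul_inv, D.av_mul, Real.log_mul (D.av_pos v _ k4).ne'
    (D.av_pos v _ (inv_ne_zero k5)).ne', av_inv _ _ k5, add_mul]
  have := abs_sub (Real.log (D.av v (rep a t))) (Real.log (D.av v (rep b t)))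
  rw [← sub_eq_add_neg]
  linarith [k1 v, k2 v]

theorem ev_iff {p : ℕ × ((K ≃ₐ[ℚ] K) ⊕ Fin D.s) → Prop} :
    (∀ᶠ ω in Filter.comap Prod.fst (𝒰 : Filter ℕ), p ω) ↔
      ∀ᶠ t in (𝒰 : Filter ℕ), ∀ v, p (t, v) := by
  rw [Filter.eventually_comap]
  constructor
  · intro h
    filter_upwards [h] with t ht v
    exact ht (t, v) rfl
  · intro h
    filter_upwards [h] with t ht
    rintro ⟨t', v⟩ rfl
    exact ht v

theorem inc_smul (c : K) (x : EE D 𝒰 N hN) : inc hN (c • x) = cg 𝒰 c * inc hN x := by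
  rw [Algebra.smul_def, map_mul, inc_algebraMap]

/-- sums with constant coefficients -/
theorem rep_inc_sum {m : ℕ} (b : Fin m → K) (x : Fin m → EE D 𝒰 N hN) :
    ∀ᶠ t in (𝒰 : Filter ℕ), rep (inc hN (∑ j, b j • x j)) t = ∑ j, b j * rep (inc hN (x j)) t := by
  have h1 : inc hN (∑ j, b j • x j) = ∑ j, cg 𝒰 (b j) * inc hN (x j) := by
    rw [map_sum]
    exact Finset.sum_congr rfl fun j _ => inc_smul hN _ _
  rw [h1]
  exact rep_lin b _

/-- the subspace theorem in the dictionary -/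
theorem smt_AR (hNt : Tendsto N (𝒰 : Filter ℕ) atTop) (n : ℕ) (κ : Type) [Finite κ]
    (B : κ → Fin n → EE D 𝒰 N hN) (hli : ∀ c, LinearIndependent K (B c))
    (hsp : ∀ c c', Submodule.span K (Set.range (B c)) = Submodule.span K (Set.range (B c')))
    (hR : ∀ c a, TI D 𝒰 (rep (inc hN (B c a)))) (s : ℕ × ((K ≃ₐ[ℚ] K) ⊕ Fin D.s) → κ)
    (ε : ℝ) (hε : 0 < ε) :
    ∀ᶠ t in (𝒰 : Filter ℕ),
      ∑ v, -∑ a, Real.log (D.av v (rep (inc hN (B (s (t, v)) a)) t)) ≤ ε * N t := by
  classical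
  have := Fintype.ofFinite κ
  rcases Nat.eq_zero_or_pos n with hn0 | hn
  · subst hn0
    refine Filter.Eventually.of_forall fun t => ?_
    simp only [Finset.univ_eq_empty, Finset.sum_empty, neg_zero, Finset.sum_const_zero]
    exact mul_nonneg hε.le (by linarith [hN t])
  obtain ⟨c0, -⟩ : ∃ c0 : κ, True := ⟨s (0, Sum.inl 1), trivial⟩
  have hΦex : ∀ c a, ∃ b : Fin n → K, ∑ j, b j • B c0 j = B c a := by
    intro c a
    rw [← Submodule.mem_span_range_iff_exists_fun, ← hsp c c0]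
    exact Submodule.subset_span ⟨a, rfl⟩
  choose Φ0 hΦ0 using hΦex
  obtain ⟨σ, hσ⟩ := eventually_const (𝒰 := 𝒰) (fun t v => s (t, v))
  let eq : Fin (Fintype.card (κ × Fin n)) ≃ κ × Fin n := (Fintype.equivFin _).symm
  let Φ : Fin (Fintype.card (κ × Fin n)) → Fin n → K := fun i => Φ0 (eq i).1 (eq i).2
  let J : (K ≃ₐ[ℚ] K) ⊕ Fin D.s → Fin n → Fin (Fintype.card (κ × Fin n)) :=
    fun v a => eq.symm (σ v, a)
  have hΦJ : ∀ v a, Φ (J v a) = Φ0 (σ v) a := by
    intro v a
    simp only [Φ, J, Equiv.apply_symm_apply]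
  have hdet : ∀ c, (Matrix.of fun a j => Φ0 c a j).det ≠ 0 := by
    intro c h
    obtain ⟨w, hw, hw2⟩ := Matrix.exists_vecMul_eq_zero_iff.2 h
    apply hw
    have h1 : ∑ a, w a • B c a = 0 := by
      have h2 : ∑ a, w a • B c a = ∑ j, (Matrix.vecMul w (Matrix.of fun a j => Φ0 c a j)) j •
          B c0 j := by
        simp only [← hΦ0 c, Matrix.vecMul, dotProduct, Matrix.of_apply, Finset.smul_sum,
          Finset.sum_smul, smul_smul]
        rw [Finset.sum_comm]
      rw [h2, hw2]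
      simp
    exact funext fun a => Fintype.linearIndependent_iff.1 (hli c) w h1 a
  have hJdet : ∀ v, (Matrix.of fun a j => Φ (J v a) j).det ≠ 0 := by
    intro v
    simp only [hΦJ]
    exact hdet (σ v)
  have hΦne : ∀ i, Φ i ≠ 0 := by
    intro i h
    apply hdet (eq i).1
    refine Matrix.det_eq_zero_of_row_eq_zero (eq i).2 fun j => ?_
    exact congrFun h j
  obtain ⟨e, he, hden⟩ := common_den (fun j => inc hN (B c0 j)) (hR c0)
  have heK : (e : K) ≠ 0 := RingOfIntegers.coe_ne_zero_iff.2 he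
  have hB0 : ∀ c a, B c a ≠ 0 := fun c a => (hli c).ne_zero a
  choose C hC0 hC using fun j => EE_bdd hN (B c0 j) (hB0 c0 j)
  have hind : ∀ b : Fin n → K, b ≠ 0 → ∀ᶠ t in (𝒰 : Filter ℕ),
      ∑ j, b j * ((e : K) * rep (inc hN (B c0 j)) t) ≠ 0 := by
    intro b hb
    have h1 : ∑ j, b j • B c0 j ≠ 0 := by
      intro h
      exact hb (funext fun j => Fintype.linearIndependent_iff.1 (hli c0) b h j)
    have h2 : inc hN (∑ j, b j • B c0 j) ≠ 0 := (map_ne_zero _).2 h1
    filter_upwards [rep_ne _ h2, rep_inc_sum hN b (B c0)] with t k1 k2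
    rw [k2] at k1
    have h3 : ∑ j, b j * ((e : K) * rep (inc hN (B c0 j)) t) =
        (e : K) * ∑ j, b j * rep (inc hN (B c0 j)) t := by
      rw [Finset.mul_sum]
      exact Finset.sum_congr rfl fun j _ => by ring
    rw [h3]
    exact mul_ne_zero heK k1
  have hmain := subS D (𝒰 : Filter ℕ) hn Φ hΦne J hJdet N hNt
    (fun t j => (e : K) * rep (inc hN (B c0 j)) t) hden (∑ v, D.av v (e : K) + ∑ j, C j) (by
      have h0 : ∀ᶠ t in (𝒰 : Filter ℕ), ∀ j, rep (inc hN (B c0 j)) t ≠ 0 :=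
        (Filter.eventually_all).2 fun j => rep_ne _ ((map_ne_zero _).2 (hB0 c0 j))
      filter_upwards [(Filter.eventually_all).2 hC, h0] with t k1 k2 j v
      rw [D.av_mul, add_mul, Real.exp_add]
      have h5 := hN t
      have h1 : D.av v (rep (inc hN (B c0 j)) t) ≤ Real.exp ((∑ j, C j) * N t) := by
        rw [← Real.log_le_iff_le_exp (D.av_pos v _ (k2 j))]
        refine (le_abs_self _).trans ((k1 j v).trans ?_)
        refine mul_le_mul_of_nonneg_right ?_ (by linarith)
        exact Finset.single_le_sum (f := C) (fun j _ => hC0 j) (Finset.mem_univ j)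
      have h2 : D.av v (e : K) ≤ Real.exp ((∑ v, D.av v (e : K)) * N t) := by
        have h3 : D.av v (e : K) ≤ ∑ v, D.av v (e : K) :=
          Finset.single_le_sum (f := fun v => D.av v (e : K)) (fun _ _ => D.av_nonneg _ _)
            (Finset.mem_univ v)
        have h4 := Real.add_one_le_exp ((∑ v, D.av v (e : K)) * N t)
        have h6 := D.av_nonneg v (e : K)
        nlinarith
      exact mul_le_mul h2 h1 (D.av_nonneg _ _) (Real.exp_pos _).le) hind (ε / 2) (by linarith)
  obtain ⟨Le, hLe⟩ : ∃ Le : ℝ, Le = ∑ v, Real.log (D.av v (e : K)) := ⟨_, rfl⟩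
  have g1 : ∀ᶠ t in (𝒰 : Filter ℕ), ∀ c a, rep (inc hN (B c a)) t =
      ∑ j, Φ0 c a j * rep (inc hN (B c0 j)) t := by
    refine (Filter.eventually_all).2 fun c => (Filter.eventually_all).2 fun a => ?_
    have := rep_inc_sum hN (Φ0 c a) (B c0)
    rw [hΦ0] at this
    exact this
  have g2 : ∀ᶠ t in (𝒰 : Filter ℕ), ∀ c a, rep (inc hN (B c a)) t ≠ 0 :=
    (Filter.eventually_all).2 fun c => (Filter.eventually_all).2 fun a =>
      rep_ne _ ((map_ne_zero _).2 (hB0 c a))
  filter_upwards [hmain, g1, g2, hσ, hNt.eventually_ge_atTop (2 * (n * Le) / ε)]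
    with t k1 k2 k3 k4 k5
  have hs : ∀ v, s (t, v) = σ v := fun v => congrFun k4 v
  have h1 : ∀ v, ∑ a, Real.log (D.av v (∑ j, Φ (J v a) j * ((e : K) * rep (inc hN (B c0 j)) t))) =
      n * Real.log (D.av v (e : K)) +
        ∑ a, Real.log (D.av v (rep (inc hN (B (s (t, v)) a)) t)) := by
    intro v
    rw [hs]
    have h2 : ∀ a, Real.log (D.av v (∑ j, Φ (J v a) j * ((e : K) * rep (inc hN (B c0 j)) t))) =
        Real.log (D.av v (e : K)) + Real.log (D.av v (rep (inc hN (B (σ v) a)) t)) := by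
      intro a
      have h3 : ∑ j, Φ (J v a) j * ((e : K) * rep (inc hN (B c0 j)) t) =
          (e : K) * rep (inc hN (B (σ v) a)) t := by
        rw [k2, Finset.mul_sum, hΦJ]
        exact Finset.sum_congr rfl fun j _ => by ring
      rw [h3, D.av_mul, Real.log_mul (D.av_pos v _ heK).ne' (D.av_pos v _ (k3 _ a)).ne']
    rw [Finset.sum_congr rfl fun a _ => h2 a, Finset.sum_add_distrib, Finset.sum_const,
      Finset.card_univ, Fintype.card_fin, nsmul_eq_mul]
  rw [Finset.sum_congr rfl fun v _ => h1 v, Finset.sum_add_distrib, ← Finset.mul_sum, ← hLe] at k1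
  rw [Finset.sum_neg_distrib]
  rw [div_le_iff₀ hε] at k5
  linarith

/-- the dictionary -/
noncomputable def arDict (D : PD K) (hNt : Tendsto N (𝒰 : Filter ℕ) atTop) :
    Dict K (EE D 𝒰 N hN) where
  Ω := ℕ × ((K ≃ₐ[ℚ] K) ⊕ Fin D.s)
  ev := Filter.comap Prod.fst (𝒰 : Filter ℕ)
  A x ω := D.av ω.2 (rep (inc hN x) ω.1)
  Neg f := ∀ ε : ℝ, 0 < ε → ∀ᶠ t in (𝒰 : Filter ℕ), ∑ v, f (t, v) ≤ ε * N t
  one ω := N ω.1
  R :=
    { carrier := {x | TI D 𝒰 (rep (inc hN x))}
      mul_mem' := by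
        intro x y hx hy
        show TI D 𝒰 (rep (inc hN (x * y)))
        rw [map_mul]
        exact TI_rep_mul _ _ hx hy
      one_mem' := by
        show TI D 𝒰 (rep (inc hN 1))
        rw [map_one]
        refine (TI.const (1 : K)).congr ?_
        have h0 : ∀ᶠ t in (𝒰 : Filter ℕ), rep (1 : GK K 𝒰) t = 1 := rep_one
        filter_upwards [h0] with t ht
        exact ht.symm
      add_mem' := by
        intro x y hx hy
        show TI D 𝒰 (rep (inc hN (x + y)))
        rw [map_add]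
        refine (TI.add hx hy).congr ?_
        filter_upwards [rep_add (inc hN x) (inc hN y)] with t ht
        exact ht.symm
      zero_mem' := by
        show TI D 𝒰 (rep (inc hN 0))
        rw [map_zero]
        refine (TI.const (0 : K)).congr ?_
        have h0 : ∀ᶠ t in (𝒰 : Filter ℕ), rep (0 : GK K 𝒰) t = 0 := rep_zero
        filter_upwards [h0] with t ht
        exact ht.symm
      neg_mem' := by
        intro x hx
        show TI D 𝒰 (rep (inc hN (-x)))
        rw [map_neg]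
        refine ((TI.const (-1 : K)).mul hx).congr ?_
        filter_upwards [rep_neg (inc hN x)] with t ht
        rw [ht]
        ring }
  U :=
    { carrier := {u | TI D 𝒰 (rep (inc hN (u : EE D 𝒰 N hN))) ∧
        TI D 𝒰 (rep (inc hN ((u⁻¹ : (EE D 𝒰 N hN)ˣ) : EE D 𝒰 N hN)))}
      mul_mem' := by
        rintro u v ⟨h1, h2⟩ ⟨h3, h4⟩
        constructor
        · rw [Units.val_mul, map_mul]
          exact TI_rep_mul _ _ h1 h3
        · rw [mul_inv, Units.val_mul, map_mul]
          exact TI_rep_mul _ _ h2 h4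
      one_mem' := by
        have h1 : TI D 𝒰 (rep (inc hN ((1 : (EE D 𝒰 N hN)ˣ) : EE D 𝒰 N hN))) := by
          rw [Units.val_one, map_one]
          refine (TI.const (1 : K)).congr ?_
          have h0 : ∀ᶠ t in (𝒰 : Filter ℕ), rep (1 : GK K 𝒰) t = 1 := rep_one
          filter_upwards [h0] with t ht
          exact ht.symm
        refine ⟨h1, ?_⟩
        rw [inv_one]
        exact h1
      inv_mem' := by
        rintro u ⟨h1, h2⟩
        refine ⟨h2, ?_⟩
        rw [inv_inv]
        exact h1 }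
  A_zero := by
    rw [ev_iff]
    have h0 : ∀ᶠ t in (𝒰 : Filter ℕ), rep (0 : GK K 𝒰) t = 0 := rep_zero
    filter_upwards [h0] with t ht v
    rw [map_zero, ht, D.av_zero]
  A_pos := by
    intro x hx
    rw [ev_iff]
    filter_upwards [rep_ne _ ((map_ne_zero (inc hN)).2 hx)] with t ht v
    exact D.av_pos v _ ht
  A_mul := by
    intro x y
    rw [ev_iff]
    filter_upwards [rep_mul (inc hN x) (inc hN y)] with t ht v
    rw [map_mul, ht, D.av_mul]
  A_add := by
    intro x y
    rw [ev_iff]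
    filter_upwards [rep_add (inc hN x) (inc hN y)] with t ht v
    rw [map_add, ht]
    exact D.av_add v _ _
  A_const := by
    intro c
    refine ⟨∑ v, D.av v c, ?_⟩
    rw [ev_iff]
    filter_upwards [rep_cg (𝒰 := 𝒰) c] with t ht v
    rw [inc_algebraMap, ht]
    exact Finset.single_le_sum (f := fun v => D.av v c) (fun _ _ => D.av_nonneg _ _)
      (Finset.mem_univ v)
  neg_mono := by
    intro f g hfg hf ε hε
    rw [ev_iff] at hfg
    filter_upwards [hfg, hf ε hε] with t h1 h2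
    exact (Finset.sum_le_sum fun v _ => h1 v).trans h2
  neg_add := by
    intro f g hf hg ε hε
    filter_upwards [hf (ε / 2) (by linarith), hg (ε / 2) (by linarith)] with t h1 h2
    rw [Finset.sum_add_distrib]
    linarith
  neg_smul := by
    intro f c hc hf ε hε
    rcases hc.eq_or_lt with rfl | hc
    · refine Filter.Eventually.of_forall fun t => ?_
      simp only [zero_mul, Finset.sum_const_zero]
      exact mul_nonneg hε.le (by linarith [hN t])
    · filter_upwards [hf (ε / c) (by positivity)] with t h1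
      rw [← Finset.mul_sum]
      have h2 := mul_le_mul_of_nonneg_left h1 hc.le
      have h3 : c * (ε / c * N t) = ε * N t := by field_simp
      linarith
  neg_const := by
    intro c ε hε
    filter_upwards [hNt.eventually_ge_atTop
      ((Finset.univ : Finset ((K ≃ₐ[ℚ] K) ⊕ Fin D.s)).card * c / ε)] with t h1
    rw [div_le_iff₀ hε] at h1
    rw [Finset.sum_const, nsmul_eq_mul]
    linarith
  one_nonneg := by
    rw [ev_iff]
    exact Filter.Eventually.of_forall fun t v => by
      show 0 ≤ N t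
      linarith [hN t]
  arch := by
    intro f hf ε hε
    obtain ⟨nV, hnV⟩ : ∃ nV : ℝ, nV = (Finset.univ : Finset ((K ≃ₐ[ℚ] K) ⊕ Fin D.s)).card :=
      ⟨_, rfl⟩
    have hnV0 : 0 ≤ nV := by rw [hnV]; exact Nat.cast_nonneg _
    have hδ : 0 < ε / (nV + 1) := by positivity
    filter_upwards [hf (ε / (nV + 1)) hδ (ε / (nV + 1)) hδ] with t h1
    rw [Finset.sum_sub_distrib, Finset.sum_const, nsmul_eq_mul, ← hnV] at h1
    have h2 : nV * (ε / (nV + 1) * N t) + ε / (nV + 1) * N t = ε * N t := by field_simp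
    linarith
  bdd := by
    intro x hx
    obtain ⟨C, hC, h1⟩ := EE_bdd hN x hx
    refine ⟨C, fun ε hε => ?_⟩
    filter_upwards [h1] with t ht
    refine (Finset.sum_nonpos fun v _ => ?_).trans (mul_nonneg hε.le (by linarith [hN t]))
    have := ht v
    linarith
  const_mem := by
    intro c
    show TI D 𝒰 (rep (inc hN (algebraMap K (EE D 𝒰 N hN) c)))
    rw [inc_algebraMap]
    refine (TI.const c).congr ?_
    filter_upwards [rep_cg (𝒰 := 𝒰) c] with t ht
    exact ht.symm
  unit_mem := fun u hu => hu.1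
  const_unit := by
    rintro u ⟨c, hc⟩
    have h1 : ∀ c : K, TI D 𝒰 (rep (cg 𝒰 c)) := by
      intro c
      refine (TI.const c).congr ?_
      filter_upwards [rep_cg (𝒰 := 𝒰) c] with t ht
      exact ht.symm
    refine ⟨?_, ?_⟩
    · rw [← hc, inc_algebraMap]
      exact h1 c
    · rw [Units.val_inv_eq_inv_val, ← hc, ← map_inv₀, inc_algebraMap]
      exact h1 _
  unit_neg := by
    rintro u ⟨-, h2⟩ ε hε
    have hu0 : inc hN (u : EE D 𝒰 N hN) ≠ 0 := (map_ne_zero _).2 u.ne_zero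
    obtain ⟨C, hC⟩ := ubdd (D := D) (inc hN (u : EE D 𝒰 N hN)) hu0 (by
      rw [Units.val_inv_eq_inv_val, map_inv₀] at h2
      exact h2)
    filter_upwards [hC, hNt.eventually_ge_atTop (C / ε)] with t k1 k2
    rw [div_le_iff₀ hε] at k2
    linarith
  smt := by
    intro n κ _ B hli hsp hR s ε hε
    exact smt_AR hN hNt n κ B hli hsp hR s ε hε
  unit_eq := by
    intro n u hu hr
    rw [Fintype.linearIndependent_iff]
    intro g hg i
    have h1 := unit_ind (𝒰 := 𝒰) D n (fun i => inc hN (u i : EE D 𝒰 N hN))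
      (fun i => (map_ne_zero _).2 (u i).ne_zero) (fun i => (hu i).1) (fun i => by
        have h2 := (hu i).2
        rw [Units.val_inv_eq_inv_val, map_inv₀] at h2
        exact h2) (fun i j hij c h => by
        apply hr i j hij
        refine ⟨c, ?_⟩
        apply inc_inj hN
        rw [inc_algebraMap, ← h, Units.val_div_eq_div_val, map_div₀]) g (by
        have h2 := congrArg (inc hN) hg
        rw [map_sum, map_zero] at h2
        rw [← h2]
        exact Finset.sum_congr rfl fun j _ => (inc_smul hN _ _).symm)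
    exact congrFun h1 i
  tf := by
    rintro x n hn ⟨c, hc⟩
    have h1 : ∀ᶠ t in (𝒰 : Filter ℕ), rep (inc hN x) t ^ n = c := by
      have h2 : gm 𝒰 (rep (inc hN x) ^ n) = gm 𝒰 (fun _ => c) := by
        rw [map_pow, gm_rep, ← map_pow, ← hc]
        rfl
      exact (gm_eq 𝒰 _ _).1 h2
    have hfin : {y : K | y ^ n = c}.Finite := by
      have h3 : (Polynomial.X ^ n - Polynomial.C c : Polynomial K) ≠ 0 :=
        Polynomial.X_pow_sub_C_ne_zero hn c
      refine (Polynomial.finite_setOfPred_isRoot h3).subset ?_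
      intro y hy
      have hy' : y ^ n = c := hy
      show Polynomial.IsRoot _ y
      rw [Polynomial.IsRoot, Polynomial.eval_sub, Polynomial.eval_pow, Polynomial.eval_X,
        Polynomial.eval_C, hy', sub_self]
    obtain ⟨a, -, ha⟩ := const_of_finite (𝒰 := 𝒰) (rep (inc hN x)) _ hfin h1
    refine ⟨a, ?_⟩
    apply inc_inj hN
    rw [inc_algebraMap, ← ha, gm_rep]

end Pool.Agent.Y742.AR
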