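import Mathlib
import Pool.Agent.Y742.AR.Inst
import Pool.Agent.Y742.DI.Desc

/-!
Extension of the number field; the consequences of the Nullstellensatz.
-/

set_option autoImplicit false
set_option linter.unusedSectionVars false
set_option linter.unusedSimpArgs false

open Finset Filter Topology Module

namespace Pool.Agent.Y742.AR

open NumberField IsDedekindDomain
open Pool.Agent.Y742.SF Pool.Agent.Y742.DI

/-- a Galois extension of the rational numbers containing `L` and the fourth roots of unity -/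
theorem exists_galois (L : Type) [Field L] [NumberField L] :
    ∃ (M : Type) (_ : Field M) (_ : NumberField M) (_ : IsGalois ℚ M) (_ : L →+* M),
      ∃ z : M, z ^ 2 = -1 := by
  classical
  let E := AlgebraicClosure L
  obtain ⟨i, hi⟩ := IsAlgClosed.exists_pow_nat_eq (-1 : E) (n := 2) (by norm_num)
  let b := Module.finBasis ℚ L
  let S : Set E := Set.range (fun j => algebraMap L E (b j)) ∪ {i}
  have hSfin : Finite S := Set.Finite.to_subtype ((Set.finite_range _).union (Set.finite_singleton _))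
  have halg : Algebra.IsAlgebraic ℚ E := Algebra.IsAlgebraic.trans ℚ L E
  have hfd : FiniteDimensional ℚ (IntermediateField.adjoin ℚ S) :=
    IntermediateField.finiteDimensional_adjoin fun x _ => Algebra.IsIntegral.isIntegral x
  let A := IntermediateField.adjoin ℚ S
  let M := IntermediateField.normalClosure ℚ A E
  have hfdM : FiniteDimensional ℚ M := normalClosure.is_finiteDimensional ℚ A E
  have hnE : Normal ℚ E := by
    have : Algebra.IsAlgebraic ℚ E := halg
    have hcl : IsAlgClosure ℚ E := ⟨inferInstance, inferInstance⟩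
    exact IsAlgClosure.normal ℚ E
  have hnM : Normal ℚ M := normalClosure.normal ℚ A E
  have hNF : NumberField M := ⟨⟩
  have hG : IsGalois ℚ M := ⟨⟩
  have hAM : A ≤ M := IntermediateField.le_normalClosure A
  have hL : ∀ x : L, algebraMap L E x ∈ M := by
    intro x
    apply hAM
    rw [← b.sum_repr x, map_sum]
    refine sum_mem fun j _ => ?_
    rw [Algebra.smul_def, map_mul, ← IsScalarTower.algebraMap_apply]
    exact mul_mem (IntermediateField.algebraMap_mem _ _)
      (IntermediateField.subset_adjoin _ _ (Or.inl ⟨j, rfl⟩))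
  refine ⟨M, inferInstance, hNF, hG, (algebraMap L E).codRestrict M.toSubring hL, ⟨i, ?_⟩, ?_⟩
  · apply hAM
    exact IntermediateField.subset_adjoin _ _ (Or.inr rfl)
  · apply Subtype.ext
    push_cast
    exact hi

/-- `S`-integral elements become integral after multiplication by a power of an integer -/
theorem pow_mul_int {L : Type} [Field L] [NumberField L] (S : Set (HeightOneSpectrum (𝓞 L)))
    (hS : S.Finite) : ∃ m : ℕ, m ≠ 0 ∧ ∀ x ∈ S.integer L, ∃ (k : ℕ) (y : 𝓞 L),
      (y : L) = (m : L) ^ k * x := by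
  classical
  let m : ℕ := ∏ v ∈ hS.toFinset, Ideal.absNorm v.asIdeal
  have hm : m ≠ 0 := by
    refine Finset.prod_ne_zero_iff.2 fun v _ => ?_
    rw [Ne, Ideal.absNorm_eq_zero_iff]
    exact v.ne_bot
  have hST : ∀ v ∈ S, (m : 𝓞 L) ∈ v.asIdeal := by
    intro v hv
    have h1 : (Ideal.absNorm v.asIdeal : 𝓞 L) ∈ v.asIdeal := Ideal.absNorm_mem _
    obtain ⟨c, hc⟩ : Ideal.absNorm v.asIdeal ∣ m :=
      Finset.dvd_prod_of_mem _ (hS.mem_toFinset.2 hv)
    rw [hc]
    push_cast
    exact Ideal.mul_mem_right _ _ h1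
  have hmint : ∀ v : HeightOneSpectrum (𝓞 L), fv v (m : L) ≤ 1 := fun v => by
    have h1 := fv_int v (m : 𝓞 L)
    simpa using h1
  refine ⟨m, hm, fun x hx => ?_⟩
  rw [mem_integer_iff] at hx
  have hex : ∀ v : HeightOneSpectrum (𝓞 L), ∃ k : ℕ, v ∈ S → fv v (m : L) ^ k * fv v x ≤ 1 := by
    intro v
    by_cases hv : v ∈ S
    · have h1 : fv v (m : L) < 1 := by
        refine lt_of_le_of_ne (hmint v) fun h => ?_
        have h2 := (fv_eq_one_iff v (m : 𝓞 L)).1 (by simpa using h)
        exact h2 (hST v hv)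
      obtain ⟨k, hk⟩ := exists_pow_lt_of_lt_one (show (0 : ℝ) < 1 / (fv v x + 1) by
        have := fv_nonneg v x
        positivity) h1
      refine ⟨k, fun _ => ?_⟩
      have h2 := fv_nonneg v x
      rw [lt_div_iff₀ (by positivity)] at hk
      have h3 : 0 ≤ fv v (m : L) ^ k := pow_nonneg (fv_nonneg _ _) _
      nlinarith
    · exact ⟨0, fun h => absurd h hv⟩
  choose k hk using hex
  let k0 := ∑ v ∈ hS.toFinset, k v
  obtain ⟨y, hy⟩ := mem_int ((m : L) ^ k0 * x) (by
    intro v
    rw [fv_mul, fv_pow]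
    by_cases hv : v ∈ S
    · have h1 : k v ≤ k0 := Finset.single_le_sum (f := k) (fun _ _ => Nat.zero_le _)
        (hS.mem_toFinset.2 hv)
      refine le_trans ?_ (hk v hv)
      exact mul_le_mul_of_nonneg_right (pow_le_pow_of_le_one (fv_nonneg _ _) (hmint v) h1)
        (fv_nonneg _ _)
    · exact mul_le_one₀ (pow_le_one₀ (fv_nonneg _ _) (hmint v)) (fv_nonneg _ _) (hx v hv))
  exact ⟨k0, y, hy⟩

/-- extension of place data -/
theorem exists_ext (L : Type) [Field L] [NumberField L] (S : Set (HeightOneSpectrum (𝓞 L)))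
    (hS : S.Finite) : ∃ (M : Type) (_ : Field M) (_ : NumberField M) (_ : IsGalois ℚ M)
      (j : L →+* M) (D : PD M), ∀ x ∈ S.integer L, D.TInt (j x) := by
  obtain ⟨M, _, _, _, j, hi⟩ := exists_galois L
  obtain ⟨m, hm, hm2⟩ := pow_mul_int S hS
  obtain ⟨D, hD⟩ := exists_PD (K := M) hi _ (finite_primes m hm)
  refine ⟨M, inferInstance, inferInstance, inferInstance, j, D, fun x hx w hw => ?_⟩
  obtain ⟨k, y, hy⟩ := hm2 x hx
  have h1 : fv w (m : M) = 1 := by
    have h2 : (m : 𝓞 M) ∉ w.asIdeal := by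
      intro h
      obtain ⟨v, hv⟩ := hD w h
      exact hw v hv
    have h3 := (fv_eq_one_iff w (m : 𝓞 M)).2 h2
    simpa using h3
  have h4 : IsIntegral ℤ (j (y : L)) := by
    have := y.2
    exact IsIntegral.map j.toIntAlgHom this
  have h5 : j (y : L) = (m : M) ^ k * j x := by rw [hy, map_mul, map_pow, map_natCast]
  have h6 := fv_int w ⟨j (y : L), h4⟩
  have h7 : fv w ((⟨j (y : L), h4⟩ : 𝓞 M) : M) = fv w (j x) := by
    show fv w (j (y : L)) = _
    rw [h5, fv_mul, fv_pow, h1, one_pow, one_mul]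
  exact le_of_eq_of_le h7.symm h6

open MvPolynomial in
/-- inverses of functions without zeros -/
theorem exists_inverse {K : Type} [Field K] (σ : K →+* ℂ) {ι : Type} {n : ℕ}
    (F : ι → MvPolynomial (Fin n) K) (a : Fin n)
    (h : ∀ z : Fin n → ℂ, (∀ i, eval₂ σ z (F i) = 0) → z a ≠ 0) :
    ∃ H : MvPolynomial (Fin n) K, ∀ (A : Type) [CommRing A] (φ : K →+* A) (z : Fin n → A),
      (∀ i, eval₂ φ z (F i) = 0) → z a * eval₂ φ z H = 1 := by
  classical
  let _ : Algebra K ℂ := σ.toAlgebra
  let J : Ideal (MvPolynomial (Fin n) K) := Ideal.span (Set.range F) ⊔ Ideal.span {X a}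
  have h1 : zeroLocus ℂ J = ∅ := by
    rw [Set.eq_empty_iff_forall_notMem]
    intro z hz
    rw [mem_zeroLocus_iff] at hz
    have h2 : ∀ i, eval₂ σ z (F i) = 0 := fun i =>
      hz _ (Ideal.mem_sup_left (Ideal.subset_span ⟨i, rfl⟩))
    apply h z h2
    have h3 := hz (X a) (Ideal.mem_sup_right (Ideal.subset_span rfl))
    rwa [aeval_X] at h3
  have h2 : (1 : MvPolynomial (Fin n) K) ∈ J.radical := by
    rw [← vanishingIdeal_zeroLocus_eq_radical (K := ℂ), h1, mem_vanishingIdeal_iff]
    intro x hx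
    exact absurd hx (Set.notMem_empty x)
  have h3 : (1 : MvPolynomial (Fin n) K) ∈ J := by
    obtain ⟨m, hm⟩ := h2
    rwa [one_pow] at hm
  obtain ⟨p, hp, q, hq, hpq⟩ := Submodule.mem_sup.1 h3
  obtain ⟨H, rfl⟩ := Ideal.mem_span_singleton'.1 hq
  refine ⟨H, fun A _ φ z hz => ?_⟩
  have h4 : Ideal.span (Set.range F) ≤ RingHom.ker (eval₂Hom φ z) := by
    rw [Ideal.span_le]
    rintro _ ⟨i, rfl⟩
    exact hz i
  have h5 : eval₂Hom φ z p = 0 := h4 hp
  have h6 := congrArg (eval₂Hom φ z) hpq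
  rw [map_add, h5, zero_add, map_mul, map_one, eval₂Hom_X'] at h6
  rw [mul_comm]
  exact h6

end Pool.Agent.Y742.AR
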