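import Mathlib
import Pool.Agent.Y742.AR.Ext
import Pool.Agent.Y742.DI.Main

/-!
Infinitely many integral points give a Laurent curve.
-/

set_option autoImplicit false
set_option linter.unusedSectionVars false
set_option linter.unusedSimpArgs false

open Finset Filter Topology Module MvPolynomial

namespace Pool.Agent.Y742.AR

open NumberField IsDedekindDomain
open Pool.Agent.Y742.SF Pool.Agent.Y742.DI
open Pool.Agent.H159R3.Exp Pool.Agent.W235.RM

/-- the ring of germs which are integral up to constants -/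
noncomputable def RG {K : Type} [Field K] [NumberField K] [IsGalois ℚ K] (D : PD K)
    (𝒰 : Ultrafilter ℕ) : Subring (GK K 𝒰) where
  carrier := {x | TI D 𝒰 (rep x)}
  mul_mem' := fun hx hy => TI_rep_mul _ _ hx hy
  one_mem' := by
    refine (TI.const (1 : K)).congr ?_
    have h0 : ∀ᶠ t in (𝒰 : Filter ℕ), rep (1 : GK K 𝒰) t = 1 := rep_one
    filter_upwards [h0] with t ht
    exact ht.symm
  add_mem' := by
    intro x y hx hy
    refine (TI.add hx hy).congr ?_
    filter_upwards [rep_add x y] with t ht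
    exact ht.symm
  zero_mem' := by
    refine (TI.const (0 : K)).congr ?_
    have h0 : ∀ᶠ t in (𝒰 : Filter ℕ), rep (0 : GK K 𝒰) t = 0 := rep_zero
    filter_upwards [h0] with t ht
    exact ht.symm
  neg_mem' := by
    intro x hx
    refine ((TI.const (-1 : K)).mul hx).congr ?_
    filter_upwards [rep_neg x] with t ht
    rw [ht]
    ring

theorem cg_mem_RG {K : Type} [Field K] [NumberField K] [IsGalois ℚ K] (D : PD K)
    (𝒰 : Ultrafilter ℕ) (c : K) : cg 𝒰 c ∈ RG D 𝒰 := by
  refine (TI.const c).congr ?_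
  filter_upwards [rep_cg (𝒰 := 𝒰) c] with t ht
  exact ht.symm

/-- the field of germs -/
def GF (K : Type) (𝒰 : Ultrafilter ℕ) : Type := GK K 𝒰

noncomputable instance {K : Type} [Field K] (𝒰 : Ultrafilter ℕ) : Field (GF K 𝒰) :=
  inferInstanceAs (Field (GK K 𝒰))

noncomputable instance {K : Type} [Field K] [NumberField K] (𝒰 : Ultrafilter ℕ) :
    Algebra K (GF K 𝒰) := RingHom.toAlgebra (cg 𝒰 : K →+* GK K 𝒰)

/-- the Laurent curve through a germ of integral points, in an extension of the field of germs -/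
theorem germ_curve {k : Type} [Field k] {M : Type} [Field M] [NumberField M] [IsGalois ℚ M]
    (D : PD M) (φ : k →+* M) {ι : Type} {n : ℕ} (F : ι → MvPolynomial (Fin n) k)
    (I : Finset (Fin n)) (hF : ∀ i, LinOut I (F i)) (𝒰 : Ultrafilter ℕ) (z : Fin n → GK M 𝒰)
    (hz : ∀ a, z a ∈ RG D 𝒰) (hz' : ∀ a ∈ I, z a ≠ 0 ∧ (z a)⁻¹ ∈ RG D 𝒰)
    (hFz : ∀ i, eval₂ ((cg 𝒰).comp φ) z (F i) = 0) (hnc : ¬ ∀ a, ∃ c, z a = cg 𝒰 c) :
    ∃ (E : Type) (_ : Field E) (_ : CharZero E) (_ : Algebra M E) (z' : Fin n → E)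
      (ψ : E →+* GK M 𝒰), (∀ a, ψ (z' a) = z a) ∧ (∀ c, ψ (algebraMap M E c) = cg 𝒰 c) ∧
      LCurve (fun i => map φ (F i)) z' := by
  classical
  have halg : ∀ c, algebraMap M (GF M 𝒰) c = cg 𝒰 c := fun _ => rfl
  have hF' : ∀ i, LinOut I (map φ (F i)) := fun i s hs => hF i s (support_map_subset _ _ hs)
  obtain ⟨zG, hzG⟩ : ∃ zG : Fin n → GF M 𝒰, zG = z := ⟨z, rfl⟩
  have hFz' : ∀ i, aeval zG (MvPolynomial.map φ (F i)) = 0 := by
    intro i
    rw [aeval_def, eval₂_map, hzG]
    exact hFz i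
  by_cases hI : ∀ a ∈ I, ∃ c, z a = cg 𝒰 c
  · -- constant unit coordinates
    rcases line_or_field (P := M) (fun i => map φ (F i)) I hF' zG (fun a ha => by
      obtain ⟨c, hc⟩ := hI a ha
      rw [hzG]
      exact ⟨c, hc.symm⟩) hFz' with h | ⟨z', hz1, -⟩
    · exact ⟨GF M 𝒰, inferInstance, charZero_of_injective_algebraMap
        (algebraMap M (GF M 𝒰)).injective,
        inferInstance, zG, (RingHom.id (GK M 𝒰)), fun a => congrFun hzG a, fun c => rfl, h⟩
    · refine absurd (fun a => ⟨z' a, ?_⟩) hnc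
      have h1 := hz1 a
      rw [hzG] at h1
      exact h1.symm
  · push Not at hI
    obtain ⟨a0, ha0, hca0⟩ := hI
    -- the scale
    obtain ⟨N, hNdef⟩ : ∃ N : ℕ → ℝ,
      N = fun t => 1 + ∑ v, ∑ a ∈ I, |Real.log (D.av v (rep (z a) t))| := ⟨_, rfl⟩
    have hN : ∀ t, 1 ≤ N t := fun t => by
      rw [hNdef]
      have : 0 ≤ ∑ v, ∑ a ∈ I, |Real.log (D.av v (rep (z a) t))| :=
        Finset.sum_nonneg fun _ _ => Finset.sum_nonneg fun _ _ => abs_nonneg _
      simp only
      linarith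
    have hle : ∀ t v, ∀ a ∈ I, |Real.log (D.av v (rep (z a) t))| ≤ N t := by
      intro t v a ha
      have h1 : |Real.log (D.av v (rep (z a) t))| ≤ ∑ a ∈ I, |Real.log (D.av v (rep (z a) t))| :=
        Finset.single_le_sum (f := fun a => |Real.log (D.av v (rep (z a) t))|)
          (fun _ _ => abs_nonneg _) ha
      have h2 : ∑ a ∈ I, |Real.log (D.av v (rep (z a) t))| ≤
          ∑ v, ∑ a ∈ I, |Real.log (D.av v (rep (z a) t))| :=
        Finset.single_le_sum (f := fun v => ∑ a ∈ I, |Real.log (D.av v (rep (z a) t))|)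
          (fun _ _ => Finset.sum_nonneg fun _ _ => abs_nonneg _) (Finset.mem_univ v)
      rw [hNdef]
      simp only
      linarith
    have hNt : Tendsto N (𝒰 : Filter ℕ) atTop := by
      apply tendsto_of_unbdd
      rintro ⟨C, hC⟩
      obtain ⟨c, hc⟩ := const_of_bdd (D := D) (z a0) (hz a0) (Real.exp C) (by
        filter_upwards [hC, rep_ne (z a0) (hz' a0 ha0).1] with t h1 h2 v
        rw [← Real.log_le_iff_le_exp (D.av_pos v _ h2)]
        exact (le_abs_self _).trans ((hle t v a0 ha0).trans h1))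
      exact hca0 c hc
    have hbd : ∀ a ∈ I, z a ∈ R0 D 𝒰 N hN := by
      intro a ha
      rw [mem_R0]
      refine ⟨hz a, 1, zero_le_one, ?_⟩
      filter_upwards [rep_ne (z a) (hz' a ha).1] with t h2 v
      rw [← Real.log_le_iff_le_exp (D.av_pos v _ h2), one_mul]
      exact (le_abs_self _).trans (hle t v a ha)
    have hpre : ∀ a ∈ I, ∃ y : EE D 𝒰 N hN, inc hN y = z a := fun a ha =>
      (mem_range_inc hN _).2 ⟨z a, hbd a ha, 1, (R0 D 𝒰 N hN).one_mem, div_one _⟩
    let _ : Algebra (EE D 𝒰 N hN) (GF M 𝒰) := RingHom.toAlgebra (inc hN : _ →+* GK M 𝒰)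
    have : IsScalarTower M (EE D 𝒰 N hN) (GF M 𝒰) :=
      IsScalarTower.of_algebraMap_eq fun c => (inc_algebraMap hN c).symm
    rcases line_or_field (P := EE D 𝒰 N hN) (fun i => map φ (F i)) I hF' zG (fun a ha => by
      obtain ⟨y, hy⟩ := hpre a ha
      rw [hzG]
      exact ⟨y, hy⟩) hFz' with h | ⟨z', hz1, hz2⟩
    · exact ⟨GF M 𝒰, inferInstance, charZero_of_injective_algebraMap
        (algebraMap M (GF M 𝒰)).injective,
        inferInstance, zG, (RingHom.id (GK M 𝒰)), fun a => congrFun hzG a, fun c => rfl, h⟩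
    · have hz1' : ∀ a, inc hN (z' a) = z a := fun a => by
        have h1 := hz1 a
        rw [hzG] at h1
        exact h1
      have hchar : CharZero (EE D 𝒰 N hN) :=
        charZero_of_injective_algebraMap (algebraMap M (EE D 𝒰 N hN)).injective
      refine ⟨EE D 𝒰 N hN, inferInstance, hchar, inferInstance, z', inc hN, hz1',
        fun c => inc_algebraMap hN c, ?_⟩
      have hne0 : ∀ a ∈ I, z' a ≠ 0 := by
        intro a ha h
        apply (hz' a ha).1
        rw [← hz1', h, map_zero]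
      obtain ⟨u0, hu0⟩ : ∃ u0 : Fin n → (EE D 𝒰 N hN)ˣ,
        u0 = fun a => if h : a ∈ I then Units.mk0 (z' a) (hne0 a h) else 1 := ⟨_, rfl⟩
      have hu0I : ∀ a ∈ I, (u0 a : EE D 𝒰 N hN) = z' a := by
        intro a ha
        rw [hu0]
        simp only [dif_pos ha, Units.val_mk0]
      refine laurent_curve (arDict hN D hNt) (fun i => map φ (F i)) I hF' z' u0 ?_ ?_ ?_ hz2 ?_
      · intro a
        by_cases ha : a ∈ I
        · refine ⟨?_, ?_⟩
          · rw [hu0I a ha, hz1']
            exact hz a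
          · rw [Units.val_inv_eq_inv_val, hu0I a ha, map_inv₀, hz1']
            exact (hz' a ha).2
        · have h1 : u0 a = 1 := by
            rw [hu0]
            simp only [dif_neg ha]
          rw [h1]
          exact (arDict hN D hNt).U.one_mem
      · intro a ha
        exact (hu0I a ha).symm
      · intro a
        show TI D 𝒰 (rep (inc hN (z' a)))
        rw [hz1']
        exact hz a
      · intro hall
        obtain ⟨ε, hε⟩ : ∃ ε : ℝ, ε = 1 / (2 * (I.card + 1)) := ⟨_, rfl⟩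
        have hε0 : 0 < ε := by rw [hε]; positivity
        have h1 : ∀ a ∈ I, ∀ᶠ t in (𝒰 : Filter ℕ),
            ∑ v, |Real.log (D.av v (rep (z a) t))| ≤ ε * N t := by
          intro a ha
          have h2 := hall a ha ε hε0
          have h3 : ∀ t, ∑ v, |Real.log (D.av v (rep (z a) t))| =
              ∑ v, |(arDict hN D hNt).lg (u0 a : EE D 𝒰 N hN) (t, v)| := by
            intro t
            refine Finset.sum_congr rfl fun v _ => ?_
            show _ = |Real.log (D.av v (rep (inc hN (u0 a : EE D 𝒰 N hN)) t))|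
            rw [hu0I a ha, hz1']
          simp only [h3]
          exact h2
        have h2 := (Filter.eventually_all_finset I).2 h1
        obtain ⟨t, h3, h4⟩ := (h2.and (hNt.eventually_gt_atTop 2)).exists
        have h5 : N t = 1 + ∑ a ∈ I, ∑ v, |Real.log (D.av v (rep (z a) t))| := by
          rw [Finset.sum_comm, hNdef]
        have h6 : ∑ a ∈ I, ∑ v, |Real.log (D.av v (rep (z a) t))| ≤ I.card * (ε * N t) := by
          refine (Finset.sum_le_sum h3).trans ?_
          rw [Finset.sum_const, nsmul_eq_mul]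
        have h7 : I.card * (ε * N t) ≤ N t / 2 := by
          have h8 : (I.card : ℝ) * ε ≤ 1 / 2 := by
            rw [hε, mul_one_div, div_le_iff₀ (by positivity)]
            linarith
          have h9 : (I.card : ℝ) * (ε * N t) = (I.card : ℝ) * ε * N t := by ring
          rw [h9]
          have := mul_le_mul_of_nonneg_right h8 (show (0 : ℝ) ≤ N t by linarith)
          linarith
        linarith

theorem hasLaurent_of_infinite {K : Type} [Field K] [NumberField K] (σ : K →+* ℂ) {ι κ : Type}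
    {n : ℕ} (F : ι → MvPolynomial (Fin n) (𝓞 K)) (G : κ → MvPolynomial (Fin n) (𝓞 K))
    (I : Finset (Fin n)) (hF : ∀ i, LinOut I (F i))
    (hunit : ∀ a ∈ I, ∀ z : Fin n → ℂ,
      (∀ i, eval₂ (σ.comp (algebraMap (𝓞 K) K)) z (F i) = 0) → z a ≠ 0)
    (h : ¬ FinitelyManyIntegral F G) : HasLaurent F G := by
  classical
  unfold FinitelyManyIntegral at h
  push Not at h
  obtain ⟨L, _, _, _, S, hS, hinf⟩ := h
  obtain ⟨M, _, _, _, j, D, hD⟩ := exists_ext L S hS
  let 𝒰 : Ultrafilter ℕ := hyperfilter ℕ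
  obtain ⟨x, hx⟩ : ∃ x : ℕ ↪ _, x = Set.Infinite.natEmbedding _ hinf := ⟨_, rfl⟩
  have hxmem : ∀ t, (x t : Fin n → L) ∈ intPoints F L S \ intPoints G L S := fun t => (x t).2
  let φ : K →+* M := j.comp (algebraMap K L)
  let φ0 : 𝓞 K →+* M := φ.comp (algebraMap (𝓞 K) K)
  let z : Fin n → GK M 𝒰 := fun a => gm 𝒰 fun t => j ((x t : Fin n → L) a)
  have hev : ∀ (A : MvPolynomial (Fin n) (𝓞 K)), eval₂ ((cg 𝒰).comp φ0) z A =
      gm 𝒰 (fun t => eval₂ φ0 (fun a => j ((x t : Fin n → L) a)) A) := by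
    intro A
    induction A using MvPolynomial.induction_on with
    | C c => simp only [eval₂_C]; rfl
    | add p q hp hq =>
      simp only [eval₂_add]
      rw [hp, hq, ← map_add]
      rfl
    | mul_X p a hp =>
      simp only [eval₂_mul, eval₂_X]
      rw [hp]
      show gm 𝒰 _ * gm 𝒰 _ = _
      rw [← map_mul]
      rfl
  have hj : ∀ (y : Fin n → L) (A : MvPolynomial (Fin n) (𝓞 K)),
      eval₂ φ0 (fun a => j (y a)) A = j (eval₂ ((algebraMap K L).comp (algebraMap (𝓞 K) K)) y A) := by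
    intro y A
    rw [hom_eval₂]
    rfl
  have hFz0 : ∀ i, eval₂ ((cg 𝒰).comp φ0) z (F i) = 0 := by
    intro i
    rw [hev, ← map_zero (gm 𝒰), gm_eq]
    refine Filter.Eventually.of_forall fun t => ?_
    rw [hj, (hxmem t).1.2 i, map_zero]
    rfl
  have hFz : ∀ i, eval₂ ((cg 𝒰).comp φ) z (map (algebraMap (𝓞 K) K) (F i)) = 0 := by
    intro i
    rw [eval₂_map]
    exact hFz0 i
  have hTI : ∀ a, z a ∈ RG D 𝒰 := by
    intro a
    show TI D 𝒰 (rep (z a))
    refine ⟨1, one_ne_zero, ?_⟩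
    filter_upwards [rep_gm (𝒰 := 𝒰) fun t => j ((x t : Fin n → L) a)] with t ht
    have h1 : ((1 : 𝓞 M) : M) * rep (z a) t = j ((x t : Fin n → L) a) := by
      rw [ht]
      simp
    rw [h1]
    exact hD _ ((hxmem t).1.1 a)
  have hcg : ∀ c : K, ((cg 𝒰).comp φ) c ∈ RG D 𝒰 := fun c => cg_mem_RG D 𝒰 _
  have hnc : ¬ ∀ a, ∃ c, z a = cg 𝒰 c := by
    intro h1
    choose c hc using h1
    have h2 : ∀ᶠ t in (𝒰 : Filter ℕ), ∀ a, j ((x t : Fin n → L) a) = c a := by
      rw [Filter.eventually_all]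
      intro a
      exact (gm_eq 𝒰 _ _).1 (hc a)
    obtain ⟨t0, ht0⟩ := h2.exists
    have h3 : {t : ℕ | ∀ a, j ((x t : Fin n → L) a) = c a} ⊆ {t0} := by
      intro t ht
      apply x.injective
      apply Subtype.ext
      funext a
      apply j.injective
      rw [ht a, ht0 a]
    have h4 : ({t0}ᶜ : Set ℕ) ∈ (𝒰 : Filter ℕ) := by
      refine Filter.mem_hyperfilter_of_finite_compl ?_
      rw [compl_compl]
      exact Set.finite_singleton t0
    obtain ⟨t, ht1, ht2⟩ := (h2.and h4).exists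
    exact ht2 (h3 ht1)
  have hunit' : ∀ a ∈ I, z a ≠ 0 ∧ (z a)⁻¹ ∈ RG D 𝒰 := by
    intro a ha
    obtain ⟨H, hH⟩ := exists_inverse σ (fun i => map (algebraMap (𝓞 K) K) (F i)) a (by
      intro w hw
      apply hunit a ha w
      intro i
      have := hw i
      rwa [eval₂_map] at this)
    have h1 := hH (GK M 𝒰) ((cg 𝒰).comp φ) z hFz
    have h2 : z a ≠ 0 := by
      intro h0
      rw [h0, zero_mul] at h1
      exact zero_ne_one h1
    refine ⟨h2, ?_⟩
    have h3 : (z a)⁻¹ = eval₂ ((cg 𝒰).comp φ) z H := inv_eq_of_mul_eq_one_right h1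
    rw [h3]
    exact eval₂_mem (fun i _ => hcg _) hTI
  -- a polynomial that does not vanish
  obtain ⟨l, hl⟩ : ∃ l, eval₂ ((cg 𝒰).comp φ0) z (G l) ≠ 0 := by
    by_contra hcon
    push Not at hcon
    obtain ⟨s', hs1, hs2⟩ := (Submodule.fg_span_iff_fg_span_finset_subset
      (Set.range fun l => map (algebraMap (𝓞 K) K) (G l))).1
      (IsNoetherian.noetherian (Ideal.span (Set.range fun l => map (algebraMap (𝓞 K) K) (G l))))
    have h1 : ∀ q ∈ s', ∀ᶠ t in (𝒰 : Filter ℕ),
        eval₂ φ (fun a => j ((x t : Fin n → L) a)) q = 0 := by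
      intro q hq
      obtain ⟨l, rfl⟩ := hs1 hq
      have h2 := hcon l
      rw [hev, ← map_zero (gm 𝒰), gm_eq] at h2
      filter_upwards [h2] with t ht
      rw [eval₂_map]
      exact ht
    obtain ⟨t, ht⟩ := ((Filter.eventually_all_finset s').2 h1).exists
    apply (hxmem t).2
    refine ⟨(hxmem t).1.1, fun l => ?_⟩
    have h2 : Ideal.span (s' : Set (MvPolynomial (Fin n) K)) ≤
        RingHom.ker (eval₂Hom φ (fun a => j ((x t : Fin n → L) a))) := by
      rw [Ideal.span_le]
      intro q hq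
      exact ht q hq
    have h3 : map (algebraMap (𝓞 K) K) (G l) ∈ Ideal.span (s' : Set (MvPolynomial (Fin n) K)) := by
      have h4 : map (algebraMap (𝓞 K) K) (G l) ∈
          Submodule.span (MvPolynomial (Fin n) K)
            (Set.range fun l => map (algebraMap (𝓞 K) K) (G l)) := Submodule.subset_span ⟨l, rfl⟩
      rw [hs2] at h4
      exact h4
    have h5 : eval₂ φ (fun a => j ((x t : Fin n → L) a)) (map (algebraMap (𝓞 K) K) (G l)) = 0 :=
      h2 h3
    rw [eval₂_map] at h5
    apply j.injective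
    rw [map_zero, ← hj]
    exact h5
  obtain ⟨E, _, _, _, z', ψ, hψ, hψc, hL⟩ := germ_curve D φ
    (fun i => map (algebraMap (𝓞 K) K) (F i)) I
    (fun i s hs => hF i s (support_map_subset _ _ hs)) 𝒰 z hTI hunit' hFz hnc
  refine hasLaurent_of_LCurve F G φ z' ?_ ⟨l, ?_⟩
  · have h1 : (fun i => map φ (map (algebraMap (𝓞 K) K) (F i))) =
        fun i => map (φ.comp (algebraMap (𝓞 K) K)) (F i) := by
      funext i
      rw [MvPolynomial.map_map]
    rw [← h1]
    exact hL
  · intro h0
    apply hl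
    rw [aeval_def, eval₂_map] at h0
    have h1 := congrArg ψ h0
    rw [hom_eval₂, map_zero] at h1
    rw [← h1]
    have h2 : (cg 𝒰).comp φ0 = ψ.comp ((algebraMap M E).comp (φ.comp (algebraMap (𝓞 K) K))) := by
      ext c
      exact (hψc _).symm
    rw [h2]
    congr 1
    funext a
    exact (hψ a).symm

end Pool.Agent.Y742.AR
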